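import Pool.Agent.PlunTwo.Path

/-!
# The labelled layered graph

A state consists of `k` elements of `X`, one for every label, and of the set of the labels which
have been used. A step uses one label; it adds an element of `Bs` at this label and elements of
`B0` at all the other labels.
-/

set_option autoImplicit false
set_option linter.unusedSectionVars false

open Finset

namespace Pool.Agent.PlunRow

open Pool.Agent.PlunTwo

variable {X : Type} [AddCancelCommMonoid X] [DecidableEq X] {k : ℕ}

/-- The indicator of the used labels. -/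
def ind (S : Finset (Fin k)) : Fin k → ℕ := fun m => if m ∈ S then 1 else 0

/-- The steps. -/
def steps (k : ℕ) (B0 Bs : Finset X) : Finset ((Fin k → X) × (Fin k → ℕ)) :=
  univ.biUnion fun l : Fin k =>
    (Fintype.piFinset fun m => if m = l then Bs else B0).image fun β =>
      (β, (Pi.single l 1 : Fin k → ℕ))

theorem mem_steps {B0 Bs : Finset X} {b : (Fin k → X) × (Fin k → ℕ)} :
    b ∈ steps k B0 Bs ↔
      ∃ l : Fin k, b.2 = Pi.single l 1 ∧ b.1 l ∈ Bs ∧ ∀ m, m ≠ l → b.1 m ∈ B0 := by
  unfold steps
  simp only [mem_biUnion, mem_univ, true_and, mem_image, Fintype.mem_piFinset]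
  constructor
  · rintro ⟨l, β, h, rfl⟩
    refine ⟨l, rfl, by simpa using h l, fun m hm => ?_⟩
    simpa [hm] using h m
  · rintro ⟨l, h1, h2, h3⟩
    refine ⟨l, b.1, fun m => ?_, ?_⟩
    · by_cases hm : m = l
      · subst hm
        simpa using h2
      · simpa [hm] using h3 m hm
    · rw [← h1]

/-- The levels: elements of `V` at the used labels and elements of `U` at the others. -/
def lvl (k : ℕ) (U V : ℕ → Finset X) (i : ℕ) : Finset ((Fin k → X) × (Fin k → ℕ)) :=
  (powersetCard i (univ : Finset (Fin k))).biUnion fun S =>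
    (Fintype.piFinset fun m => if m ∈ S then V i else U i).image fun c => (c, ind S)

theorem mem_lvl {U V : ℕ → Finset X} {i : ℕ} {x : (Fin k → X) × (Fin k → ℕ)} :
    x ∈ lvl k U V i ↔ ∃ S : Finset (Fin k), S.card = i ∧ x.2 = ind S ∧
      ∀ m, x.1 m ∈ if m ∈ S then V i else U i := by
  unfold lvl
  simp only [mem_biUnion, mem_powersetCard, mem_image, Fintype.mem_piFinset]
  constructor
  · rintro ⟨S, ⟨_, h1⟩, c, h2, rfl⟩
    exact ⟨S, h1, rfl, h2⟩
  · rintro ⟨S, h1, h2, h3⟩
    refine ⟨S, ⟨subset_univ _, h1⟩, x.1, h3, ?_⟩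
    rw [← h2]

theorem card_lvl (U V : ℕ → Finset X) (i : ℕ) :
    (lvl k U V i).card ≤ k.choose i * ((V i).card ^ i * (U i).card ^ (k - i)) := by
  unfold lvl
  refine (card_biUnion_le).trans ?_
  have h : ∀ S ∈ powersetCard i (univ : Finset (Fin k)),
      ((Fintype.piFinset fun m => if m ∈ S then V i else U i).image fun c =>
        (c, ind S)).card ≤ (V i).card ^ i * (U i).card ^ (k - i) := by
    intro S hS
    refine card_image_le.trans (le_of_eq ?_)
    rw [Fintype.card_piFinset]
    have e : ∀ m, (if m ∈ S then V i else U i).card = if m ∈ S then (V i).card else (U i).card :=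
      fun m => apply_ite _ _ _ _
    rw [prod_congr rfl fun m _ => e m, prod_ite, prod_const, prod_const]
    have e1 : (univ.filter fun m => m ∈ S).card = i := by
      rw [filter_mem_eq_inter, univ_inter]
      exact (mem_powersetCard.1 hS).2
    have e2 : (univ.filter fun m => m ∉ S).card = k - i := by
      rw [filter_not, filter_mem_eq_inter, univ_inter, card_sdiff_of_subset (subset_univ _),
        card_univ, Fintype.card_fin, (mem_powersetCard.1 hS).2]
    rw [e1, e2]
  refine (sum_le_card_nsmul _ _ _ h).trans (le_of_eq ?_)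
  rw [card_powersetCard, card_univ, Fintype.card_fin, smul_eq_mul]

/-- The levels with given sources. -/
def lab (k : ℕ) (S0 : Finset (Fin k → X)) (U V : ℕ → Finset X) (i : ℕ) :
    Finset ((Fin k → X) × (Fin k → ℕ)) :=
  if i = 0 then S0.image fun a => (a, 0) else lvl k U V i

/-- The hypotheses on the regions `U`, `V` and on the sets `C i`. -/
structure Reg (B0 Bs : Finset X) (U V : ℕ → Finset X) (RU RV : X → Prop) (C : ℕ → X → Prop) :
    Prop where
  memU : ∀ i z, z ∈ U i ↔ RU z ∧ C i z
  memV : ∀ i z, z ∈ V i ↔ RV z ∧ C i z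
  hU : ∀ z, ∀ β ∈ B0, RU (z + β) → RU z
  hV : ∀ z, ∀ β ∈ B0, RV (z + β) → RV z
  hUV : ∀ z, RU z → ∀ β ∈ B0, ∀ w, RV (z + β + w) → RU (z + β)
  hC0 : ∀ i z, C i z → ∀ β ∈ B0, C (i + 1) (z + β)
  hCs : ∀ i z, C i z → ∀ β ∈ Bs, C (i + 1) (z + β)

variable {B0 Bs : Finset X} {U V : ℕ → Finset X} {RU RV : X → Prop} {C : ℕ → X → Prop}

theorem ind_empty : ind (∅ : Finset (Fin k)) = 0 := by
  funext m
  simp [ind]

theorem lab_sub_lvl {S0 : Finset (Fin k → X)} (hS0 : ∀ a ∈ S0, ∀ m, a m ∈ U 0) {i : ℕ}
    {x : (Fin k → X) × (Fin k → ℕ)} (hx : x ∈ lab k S0 U V i) : x ∈ lvl k U V i := by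
  unfold lab at hx
  split_ifs at hx with h
  · subst h
    obtain ⟨a, ha, rfl⟩ := mem_image.1 hx
    rw [mem_lvl]
    exact ⟨∅, rfl, ind_empty.symm, fun m => by simpa using hS0 a ha m⟩
  · exact hx

theorem conv_lab (H : Reg B0 Bs U V RU RV C) {S0 : Finset (Fin k → X)}
    (hS0 : ∀ a ∈ S0, ∀ m, a m ∈ U 0) : Conv (steps k B0 Bs) (lab k S0 U V) := by
  intro i x hx b hb b' hb' hxb
  have hx' := lab_sub_lvl hS0 hx
  rw [mem_lvl] at hx'
  obtain ⟨T, hT, hT2, hT3⟩ := hx'
  obtain ⟨l, hl1, hl2, hl3⟩ := mem_steps.1 hb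
  obtain ⟨l', hl1', hl2', hl3'⟩ := mem_steps.1 hb'
  have e1 : lab k S0 U V (i + 2) = lvl k U V (i + 2) := by
    unfold lab
    rw [if_neg (by omega)]
  have e2 : lab k S0 U V (i + 1) = lvl k U V (i + 1) := by
    unfold lab
    rw [if_neg (by omega)]
  rw [e1, mem_lvl] at hxb
  rw [e2, mem_lvl]
  obtain ⟨S, hS, hS2, hS3⟩ := hxb
  -- the counts
  have hcnt : ∀ m, (if m ∈ T then 1 else 0) + (if m = l then 1 else 0) +
      (if m = l' then 1 else 0) = if m ∈ S then 1 else 0 := by
    intro m
    have := congrFun hS2 m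
    simp only [Prod.snd_add, Pi.add_apply, hT2, hl1, hl1', ind, Pi.single_apply] at this
    exact this
  have hlT : l ∉ T := by
    intro h
    have := hcnt l
    rw [if_pos h, if_pos rfl] at this
    split_ifs at this <;> omega
  have hll : l ≠ l' := by
    intro h
    have := hcnt l
    rw [if_pos rfl, if_pos h] at this
    split_ifs at this <;> omega
  have hl'T : l' ∉ T := by
    intro h
    have := hcnt l'
    rw [if_pos h, if_pos rfl] at this
    split_ifs at this <;> omega
  have hCi : ∀ m, C i (x.1 m) := by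
    intro m
    have := hT3 m
    split_ifs at this
    · exact ((H.memV _ _).1 this).2
    · exact ((H.memU _ _).1 this).2
  have hCi1 : ∀ m, C (i + 1) (x.1 m + b.1 m) := by
    intro m
    by_cases hm : m = l
    · subst hm
      exact H.hCs _ _ (hCi m) _ hl2
    · exact H.hC0 _ _ (hCi m) _ (hl3 m hm)
  refine ⟨insert l T, ?_, ?_, fun m => ?_⟩
  · rw [card_insert_of_notMem hlT, hT]
  · funext m
    simp only [Prod.snd_add, Pi.add_apply, hT2, hl1, ind, Pi.single_apply, mem_insert]
    by_cases h1 : m = l
    · subst h1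
      simp [hlT]
    · simp [h1]
  · simp only [Prod.fst_add, Pi.add_apply] at hS3 ⊢
    by_cases hm : m ∈ insert l T
    · rw [if_pos hm, H.memV]
      refine ⟨?_, hCi1 m⟩
      have hml' : m ≠ l' := by
        rintro rfl
        rw [mem_insert] at hm
        rcases hm with h | h
        · exact hll h.symm
        · exact hl'T h
      have hmS : m ∈ S := by
        by_contra h
        have := hcnt m
        rw [if_neg h] at this
        rw [mem_insert] at hm
        rcases hm with h' | h'
        · rw [if_pos h'] at this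
          omega
        · rw [if_pos h'] at this
          omega
      have := hS3 m
      rw [if_pos hmS, H.memV] at this
      exact H.hV _ _ (hl3' m hml') this.1
    · rw [if_neg hm, H.memU]
      refine ⟨?_, hCi1 m⟩
      rw [mem_insert, not_or] at hm
      have hxU : RU (x.1 m) := by
        have := hT3 m
        rw [if_neg hm.2, H.memU] at this
        exact this.1
      have := hS3 m
      by_cases hmS : m ∈ S
      · rw [if_pos hmS, H.memV] at this
        exact H.hUV _ hxU _ (hl3 m hm.1) _ this.1
      · rw [if_neg hmS, H.memU] at this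
        have hml' : m ≠ l' := by
          intro h
          have := hcnt m
          rw [if_neg hmS, if_pos h] at this
          omega
        exact H.hU _ _ (hl3' m hml') this.1

/-- The connection of the elements `a` and `y` at the label `m`. -/
def Conn (k : ℕ) (B0 Bs : Finset X) (m : ℕ) (a y : X) : Prop :=
  ∃ f : ℕ → X, f m ∈ Bs ∧ (∀ t < k, t ≠ m → f t ∈ B0) ∧ a + ∑ t ∈ range k, f t = y

theorem img_lab (H : Reg B0 Bs U V RU RV C) {S0 : Finset (Fin k → X)}
    (hS0 : ∀ a ∈ S0, ∀ m, a m ∈ U 0) {Z : Finset (Fin k → X)} (hZ : Z ⊆ S0) {a y : Fin k → X}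
    (ha : a ∈ Z) (hy : ∀ m, RV (y m)) (hay : ∀ m : Fin k, Conn k B0 Bs m (a m) (y m)) :
    (y, ind univ) ∈ img (steps k B0 Bs) (lab k S0 U V) (Z.image fun a => (a, 0)) k := by
  choose f hf1 hf2 hf3 using hay
  -- partial sums
  have hC : ∀ t ≤ k, ∀ m, C t (a m + ∑ s ∈ range t, f m s) := by
    intro t
    induction t with
    | zero =>
      intro _ m
      rw [range_zero, sum_empty, add_zero]
      exact ((H.memU _ _).1 (hS0 a (hZ ha) m)).2
    | succ t ih =>
      intro ht m
      rw [sum_range_succ, ← add_assoc]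
      by_cases h : t = m
      · subst h
        exact H.hCs _ _ (ih (by omega) m) _ (hf1 m)
      · exact H.hC0 _ _ (ih (by omega) m) _ (hf2 m t (by omega) h)
  have hV : ∀ d t, t + d = k → ∀ m : Fin k, (m : ℕ) < t → RV (a m + ∑ s ∈ range t, f m s) := by
    intro d
    induction d with
    | zero =>
      intro t ht m _
      rw [add_zero] at ht
      subst ht
      rw [hf3]
      exact hy m
    | succ d ih =>
      intro t ht m hm
      have := ih (t + 1) (by omega) m (by omega)
      rw [sum_range_succ, ← add_assoc] at this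
      exact H.hV _ _ (hf2 m t (by omega) (by omega)) this
  have hU : ∀ t, ∀ m : Fin k, t ≤ (m : ℕ) → RU (a m + ∑ s ∈ range t, f m s) := by
    intro t
    induction t with
    | zero =>
      intro m _
      rw [range_zero, sum_empty, add_zero]
      exact ((H.memU _ _).1 (hS0 a (hZ ha) m)).1
    | succ t ih =>
      intro m hm
      have hmk := m.2
      rw [sum_range_succ, ← add_assoc]
      refine H.hUV _ (ih m (by omega)) _ (hf2 m t (by omega) (by omega))
        (∑ s ∈ Ico (t + 1) k, f m s) ?_
      have e : a m + ∑ s ∈ range t, f m s + f m t + ∑ s ∈ Ico (t + 1) k, f m s = y m := by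
        rw [← hf3 m, add_assoc (a m), ← sum_range_succ, add_assoc,
          sum_range_add_sum_Ico _ (by omega)]
      rw [e]
      exact hy m
  have key : ∀ t ≤ k, ((fun m => a m + ∑ s ∈ range t, f m s),
      ind (univ.filter fun m : Fin k => (m : ℕ) < t)) ∈
      img (steps k B0 Bs) (lab k S0 U V) (Z.image fun a => (a, 0)) t := by
    intro t
    induction t with
    | zero =>
      intro _
      change _ ∈ Z.image _
      rw [mem_image]
      refine ⟨a, ha, ?_⟩
      refine Prod.ext ?_ ?_
      · funext m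
        simp
      · simp [ind_empty]
    | succ t ih =>
      intro ht
      change _ ∈ nxt _ _ _
      rw [mem_nxt]
      constructor
      · unfold lab
        rw [if_neg (by omega), mem_lvl]
        refine ⟨univ.filter fun m : Fin k => (m : ℕ) < t + 1, ?_, rfl, fun m => ?_⟩
        · rw [Fin.card_filter_val_lt]
          omega
        · have hmem : m ∈ (univ.filter fun m : Fin k => (m : ℕ) < t + 1) ↔ (m : ℕ) < t + 1 := by
            simp
          by_cases hm : (m : ℕ) < t + 1
          · rw [if_pos (hmem.2 hm), H.memV]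
            exact ⟨hV (k - (t + 1)) (t + 1) (by omega) m hm, hC (t + 1) ht m⟩
          · rw [if_neg (fun h => hm (hmem.1 h)), H.memU]
            exact ⟨hU (t + 1) m (by omega), hC (t + 1) ht m⟩
      · refine ⟨_, ih (by omega), ((fun m => f m t), Pi.single ⟨t, by omega⟩ 1), ?_, ?_⟩
        · rw [mem_steps]
          refine ⟨⟨t, by omega⟩, rfl, hf1 ⟨t, by omega⟩, fun m hm => ?_⟩
          refine hf2 m t (by omega) fun h => hm ?_
          exact Fin.ext h.symm
        · refine Prod.ext ?_ ?_
          · funext m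
            simp only [Prod.fst_add, Pi.add_apply]
            rw [sum_range_succ, add_assoc]
          · funext m
            simp only [Prod.snd_add, Pi.add_apply, ind, mem_filter, mem_univ, true_and,
              Pi.single_apply, Fin.ext_iff]
            split_ifs <;> omega
  have := key k le_rfl
  have e1 : (fun m => a m + ∑ s ∈ range k, f m s) = y := funext fun m => hf3 m
  have e2 : (univ.filter fun m : Fin k => (m : ℕ) < k) = univ := by
    ext m
    simp
  rwa [e1, e2] at this

open Classical in
/-- **The labelled Plünnecke inequality.** -/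
theorem label_bound (H : Reg B0 Bs U V RU RV C) {S0 : Finset (Fin k → X)}
    (hS0 : ∀ a ∈ S0, ∀ m, a m ∈ U 0) {W : Finset X} (hW : ∀ z ∈ W, RV z) {j : ℕ} (hk : j ≤ k)
    (hj : 0 < j) {lam : ℝ} (h0 : 0 ≤ lam)
    (hmin : ∀ Z ⊆ S0, lam * (Z.card : ℝ) ≤ (((Fintype.piFinset fun _ : Fin k => W).filter
      fun y => ∃ a ∈ Z, ∀ m : Fin k, Conn k B0 Bs m (a m) (y m)).card : ℝ)) :
    lam ^ ((j : ℝ) / k) * (S0.card : ℝ) ≤
      (k.choose j : ℝ) * ((V j).card : ℝ) ^ j * ((U j).card : ℝ) ^ (k - j) := by
  have hinj : Function.Injective fun a : Fin k → X => (a, (0 : Fin k → ℕ)) := fun a b h =>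
    (Prod.ext_iff.1 h).1
  have hL0 : lab k S0 U V 0 = S0.image fun a => (a, 0) := by
    unfold lab
    rw [if_pos rfl]
  have key := plunnecke (conv_lab H hS0) (k := k) (j := j) (by omega) hk hj
    (Z := S0.image fun a => (a, 0)) (by rw [hL0]) h0 ?_
  · rw [card_image_of_injective _ hinj] at key
    refine key.trans ?_
    have h1 : (img (steps k B0 Bs) (lab k S0 U V) (S0.image fun a => (a, 0)) j).card ≤
        k.choose j * ((V j).card ^ j * (U j).card ^ (k - j)) := by
      refine (card_le_card (img_sub (by rw [hL0]) j)).trans ?_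
      unfold lab
      rw [if_neg (by omega)]
      exact card_lvl U V j
    have h2 : ((img (steps k B0 Bs) (lab k S0 U V) (S0.image fun a => (a, 0)) j).card : ℝ) ≤
        ((k.choose j * ((V j).card ^ j * (U j).card ^ (k - j)) : ℕ) : ℝ) := by
      exact_mod_cast h1
    refine h2.trans (le_of_eq ?_)
    push_cast
    ring
  · intro Z' hZ'
    set Z : Finset (Fin k → X) := Z'.image Prod.fst with hZdef
    have hZZ : Z' = Z.image fun a => (a, (0 : Fin k → ℕ)) := by
      ext x
      simp only [hZdef, mem_image]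
      constructor
      · intro hx
        refine ⟨x.1, ⟨x, hx, rfl⟩, ?_⟩
        obtain ⟨a, _, e⟩ := mem_image.1 (hZ' hx)
        rw [← e]
      · rintro ⟨a, ⟨x', hx', rfl⟩, rfl⟩
        obtain ⟨a', _, e⟩ := mem_image.1 (hZ' hx')
        have : (x'.1, (0 : Fin k → ℕ)) = x' := by
          rw [← e]
        rwa [this]
    have hZS : Z ⊆ S0 := by
      intro a ha
      obtain ⟨x, hx, rfl⟩ := mem_image.1 ha
      obtain ⟨a', ha', e⟩ := mem_image.1 (hZ' hx)
      rw [← e]
      exact ha'
    rw [hZZ, card_image_of_injective _ hinj]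
    refine (hmin Z hZS).trans ?_
    have h3 : ((Fintype.piFinset fun _ : Fin k => W).filter
        fun y => ∃ a ∈ Z, ∀ m : Fin k, Conn k B0 Bs m (a m) (y m)).card ≤
        (img (steps k B0 Bs) (lab k S0 U V) (Z.image fun a => (a, 0)) k).card := by
      refine card_le_card_of_injOn (fun y => (y, ind univ)) ?_ ?_
      · intro y hy
        rw [mem_coe, mem_filter, Fintype.mem_piFinset] at hy
        obtain ⟨hyW, a, ha, hay⟩ := hy
        exact img_lab H hS0 hZS ha (fun m => hW _ (hyW m)) hay
      · intro y _ y' _ e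
        exact (Prod.ext_iff.1 e).1
    exact_mod_cast h3

end Pool.Agent.PlunRow
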