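import Pool.Agent.PlunRow.OneHall
import Pool.Agent.PlunRow.Label

/-!
# Counting sequences with a given number of points in the row `1`
-/

set_option autoImplicit false

open Finset Classical

namespace Pool.Agent.PlunRow

open Pool.Agent.PlunTwo

/-- The number of indices `s` with `p (a s)`. -/
noncomputable def cnt {P : Type} {n : ℕ} (p : P → Prop) (a : Fin n → P) : ℕ :=
  (univ.filter fun s => p (a s)).card

theorem sum_cnt {P : Type} (n m : ℕ) (S : Finset P) (p : P → Prop) (g : P → ℝ) :
    ∑ a ∈ (Fintype.piFinset fun _ : Fin n => S).filter (fun a => cnt p a = m),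
      ∏ s, g (a s) =
    (n.choose m : ℝ) * (∑ x ∈ S.filter (fun x => ¬ p x), g x) ^ (n - m) *
      (∑ x ∈ S.filter p, g x) ^ m := by
  have h1 : ∑ a ∈ (Fintype.piFinset fun _ : Fin n => S).filter (fun a => cnt p a = m),
      ∏ s, g (a s) = ∑ T ∈ powersetCard m (univ : Finset (Fin n)),
        ∑ a ∈ ((Fintype.piFinset fun _ : Fin n => S).filter (fun a => cnt p a = m)).filter
          (fun a => (univ.filter fun s => p (a s)) = T), ∏ s, g (a s) := by
    rw [sum_fiberwise_of_maps_to]
    intro a ha
    rw [mem_powersetCard]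
    exact ⟨subset_univ _, (mem_filter.1 ha).2⟩
  have h2 : ∀ T ∈ powersetCard m (univ : Finset (Fin n)),
      ∑ a ∈ ((Fintype.piFinset fun _ : Fin n => S).filter (fun a => cnt p a = m)).filter
          (fun a => (univ.filter fun s => p (a s)) = T), ∏ s, g (a s) =
        (∑ x ∈ S.filter (fun x => ¬ p x), g x) ^ (n - m) * (∑ x ∈ S.filter p, g x) ^ m := by
    intro T hT
    have hTc := (mem_powersetCard.1 hT).2
    have e1 : ((Fintype.piFinset fun _ : Fin n => S).filter (fun a => cnt p a = m)).filter
          (fun a => (univ.filter fun s => p (a s)) = T) =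
        Fintype.piFinset fun s => if s ∈ T then S.filter p else S.filter fun x => ¬ p x := by
      ext a
      simp only [mem_filter, Fintype.mem_piFinset]
      constructor
      · rintro ⟨⟨h3, _⟩, h4⟩ s
        by_cases hs : s ∈ T
        · rw [if_pos hs, mem_filter]
          rw [← h4] at hs
          exact ⟨h3 s, (mem_filter.1 hs).2⟩
        · rw [if_neg hs, mem_filter]
          rw [← h4] at hs
          exact ⟨h3 s, fun h => hs (mem_filter.2 ⟨mem_univ _, h⟩)⟩
      · intro h3
        have h4 : (univ.filter fun s => p (a s)) = T := by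
          ext s
          have := h3 s
          rw [mem_filter]
          by_cases hs : s ∈ T
          · rw [if_pos hs, mem_filter] at this
            exact ⟨fun _ => hs, fun _ => ⟨mem_univ _, this.2⟩⟩
          · rw [if_neg hs, mem_filter] at this
            exact ⟨fun h => absurd h.2 this.2, fun h => absurd h hs⟩
        refine ⟨⟨fun s => ?_, ?_⟩, h4⟩
        · have := h3 s
          split_ifs at this
          · exact (mem_filter.1 this).1
          · exact (mem_filter.1 this).1
        · unfold cnt
          rw [h4, hTc]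
    rw [e1, ← prod_univ_sum]
    have e2 : ∀ s, ∑ x ∈ (if s ∈ T then S.filter p else S.filter fun x => ¬ p x), g x =
        if s ∈ T then ∑ x ∈ S.filter p, g x else ∑ x ∈ S.filter (fun x => ¬ p x), g x := by
      intro s
      split_ifs <;> rfl
    rw [prod_congr rfl fun s _ => e2 s, prod_ite, prod_const, prod_const]
    have e3 : (univ.filter fun s => s ∈ T).card = m := by
      rw [filter_mem_eq_inter, univ_inter]
      exact hTc
    have e4 : (univ.filter fun s => s ∉ T).card = n - m := by
      rw [filter_not, filter_mem_eq_inter, univ_inter, card_sdiff_of_subset (subset_univ _),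
        card_univ, Fintype.card_fin, hTc]
    rw [e3, e4, mul_comm]
  rw [h1, sum_congr rfl h2, sum_const, card_powersetCard, card_univ, Fintype.card_fin,
    nsmul_eq_mul, mul_assoc]

theorem card_cnt {P : Type} (n m : ℕ) (S : Finset P) (p : P → Prop) :
    (((Fintype.piFinset fun _ : Fin n => S).filter fun a => cnt p a = m).card : ℝ) =
      (n.choose m : ℝ) * ((S.filter fun x => ¬ p x).card : ℝ) ^ (n - m) *
        ((S.filter p).card : ℝ) ^ m := by
  have := sum_cnt n m S p fun _ => 1
  simpa using this

/-- The elements of `k B` as sums of `k` elements. -/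
theorem kfold_sum {B : Set (ℕ × ℕ)} {k : ℕ} {w : ℕ × ℕ} (h : w ∈ kfold B k) :
    ∃ g : ℕ → ℕ × ℕ, (∀ t < k, g t ∈ B) ∧ ∑ t ∈ range k, g t = w := by
  induction k generalizing w with
  | zero =>
    refine ⟨fun _ => 0, fun t ht => absurd ht (by omega), ?_⟩
    rw [range_zero, sum_empty]
    exact (show w = 0 from h).symm
  | succ k ih =>
    obtain ⟨w', hw', b, hb, e⟩ := h
    obtain ⟨g, hg, hs⟩ := ih hw'
    refine ⟨fun t => if t < k then g t else b, fun t ht => ?_, ?_⟩
    · by_cases h1 : t < k
      · simpa [h1] using hg t h1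
      · simpa [h1] using hb
    · rw [sum_range_succ, ← e, ← hs]
      simp only [lt_irrefl, if_false]
      congr 1
      refine sum_congr rfl fun t ht => ?_
      rw [if_pos (mem_range.1 ht)]

/-- The only change of the row can be moved to the step `l`. -/
theorem kfold_label {B : Set (ℕ × ℕ)} {k : ℕ} {w : ℕ × ℕ} (h : w ∈ kfold B k) (hw : w.2 ≤ 1)
    {l : ℕ} (hl : l < k) :
    ∃ g : ℕ → ℕ × ℕ, (∀ t < k, g t ∈ B) ∧ (∀ t < k, t ≠ l → (g t).2 = 0) ∧
      ∑ t ∈ range k, g t = w := by
  obtain ⟨g, hg, hs⟩ := kfold_sum h
  have hrow : ∑ t ∈ range k, (g t).2 = w.2 := by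
    rw [← hs]
    exact (map_sum (AddMonoidHom.snd ℕ ℕ) g (range k)).symm
  by_cases hex : ∃ t < k, (g t).2 ≠ 0
  · obtain ⟨t0, ht0, h0⟩ := hex
    have hz : ∀ t < k, t ≠ t0 → (g t).2 = 0 := by
      intro t ht hne
      by_contra hcon
      have h2 : ∑ s ∈ ({t, t0} : Finset ℕ), (g s).2 ≤ ∑ s ∈ range k, (g s).2 := by
        refine sum_le_sum_of_subset fun s hs' => ?_
        rw [mem_insert, mem_singleton] at hs'
        rw [mem_range]
        rcases hs' with rfl | rfl
        · exact ht
        · exact ht0
      rw [sum_pair hne, hrow] at h2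
      omega
    refine ⟨fun t => g (Equiv.swap t0 l t), fun t ht => ?_, fun t ht hne => ?_, ?_⟩
    · refine hg _ ?_
      rw [Equiv.swap_apply_def]
      split_ifs <;> assumption
    · refine hz _ ?_ ?_
      · rw [Equiv.swap_apply_def]
        split_ifs <;> assumption
      · intro hcon
        apply hne
        have : Equiv.swap t0 l t = Equiv.swap t0 l l := by rw [hcon, Equiv.swap_apply_right]
        exact (Equiv.swap t0 l).injective this
    · rw [← hs]
      refine sum_equiv (Equiv.swap t0 l) (fun t => ?_) fun t _ => rfl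
      rw [mem_range, mem_range, Equiv.swap_apply_def]
      split_ifs with h1 h2
      · rw [h1]
        exact ⟨fun _ => hl, fun _ => ht0⟩
      · rw [h2]
        exact ⟨fun _ => ht0, fun _ => hl⟩
      · rfl
  · push Not at hex
    exact ⟨g, hg, fun t ht _ => hex t ht, hs⟩

end Pool.Agent.PlunRow
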