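import Pool.Agent.PlunRow.Exact
import Pool.Agent.PlunTwo.Final

/-!
# The density form
-/

set_option autoImplicit false

open Finset Classical

namespace Pool.Agent.PlunRow

open Pool.Agent.PlunTwo

/-- The density of the row `j`: the least value of `|A ∩ ([0, n] × {j})| / (n + 1)` for
`n ≤ N`. -/
noncomputable def rowSigma (N j : ℕ) (A : Set (ℕ × ℕ)) : ℝ :=
  (range (N + 1)).inf' ⟨0, by simp⟩ fun n => (row j A (n + 1) : ℝ) / ((n : ℝ) + 1)

theorem rowSigma_nonneg (N j : ℕ) (A : Set (ℕ × ℕ)) : 0 ≤ rowSigma N j A := by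
  refine le_inf' _ _ fun n _ => ?_
  positivity

theorem rowSigma_mul_le (N j : ℕ) (A : Set (ℕ × ℕ)) {l : ℕ} (hl : l ≤ N + 1) :
    rowSigma N j A * (l : ℝ) ≤ row j A l := by
  rcases Nat.eq_zero_or_pos l with h | h
  · subst h
    simp
  · obtain ⟨n, rfl⟩ : ∃ n, l = n + 1 := ⟨l - 1, by omega⟩
    have h1 : rowSigma N j A ≤ (row j A (n + 1) : ℝ) / ((n : ℝ) + 1) :=
      inf'_le (f := fun n : ℕ => (row j A (n + 1) : ℝ) / ((n : ℝ) + 1))
        (mem_range.2 (by omega))
    rw [le_div_iff₀ (by positivity)] at h1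
    push_cast
    exact h1

theorem sigma_le_rowSigma (N : ℕ) (A : Set (ℕ × ℕ)) : sigma N A ≤ rowSigma N 0 A := by
  refine le_inf' _ _ fun n hn => ?_
  have := row_zero_ge N A (l := n + 1) (by
    rw [mem_range] at hn
    omega)
  rw [le_div_iff₀ (by positivity)]
  push_cast at this
  exact this

/-- The exact inequality, with lower bounds of the densities of the two rows of `k B`. -/
theorem density_row {N j k : ℕ} (hj : 0 < j) (hk : j < k) (A B : Set (ℕ × ℕ)) {δ0 δ1 : ℝ}
    (hδ1 : 0 ≤ δ1) (hδ : δ1 ≤ δ0)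
    (hK0 : ∀ l ≤ N + 1, δ0 * (l : ℝ) ≤ row 0 (kfold B k) l)
    (hK1 : ∀ l ≤ N + 1, δ1 * (l : ℝ) ≤ row 1 (kfold B k) l) :
    sigma N A ^ (1 - (j : ℝ) / k) * ((δ0 + δ1) / 2) ^ ((j : ℝ) / k) ≤
      sigma N (msum A (kfold B j)) := by
  obtain ⟨hθ0, hθ1⟩ := theta_pos hj hk
  rcases (sigma_nonneg N A).eq_or_lt with h | hα
  · rw [← h, Real.zero_rpow (by linarith), zero_mul]
    exact sigma_nonneg _ _
  rcases (hδ1.trans hδ).eq_or_lt with h | hδ0
  · have : (δ0 + δ1) / 2 = 0 := by linarith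
    rw [this, Real.zero_rpow hθ0.ne', mul_zero]
    exact sigma_nonneg _ _
  have hκ : 0 < (δ0 + δ1) / 2 := by linarith
  refine le_sigma N _ _ (fun n hn => ?_) fun n hn => ?_
  · exact one_row hj hk hn A B hα hκ (fun l hl => row_zero_ge N A hl) fun l hl => by
      refine le_trans ?_ (hK0 l hl)
      exact mul_le_mul_of_nonneg_right (by linarith) (Nat.cast_nonneg l)
  · have h := two_rows_exact (q := n) hj hk A B hα hδ0 hδ1 hδ
      (fun l hl => row_zero_ge N A (by omega))
      (fun l hl => by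
        have := rows_ge N A (l := l) (by omega)
        linarith)
      (fun l hl => hK0 l (by omega)) (fun l hl => hK1 l (by omega))
    push_cast at h
    exact h

/-- The exact inequality for the row-wise density of `k B`. -/
theorem density_min {N j k : ℕ} (hj : 0 < j) (hk : j < k) (A B : Set (ℕ × ℕ)) :
    sigma N A ^ (1 - (j : ℝ) / k) * (min (rowSigma N 0 (kfold B k))
      ((rowSigma N 0 (kfold B k) + rowSigma N 1 (kfold B k)) / 2)) ^ ((j : ℝ) / k) ≤
      sigma N (msum A (kfold B j)) := by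
  rcases le_total (rowSigma N 1 (kfold B k)) (rowSigma N 0 (kfold B k)) with h | h
  · rw [min_eq_right (by linarith)]
    exact density_row hj hk A B (rowSigma_nonneg _ _ _) h
      (fun l hl => rowSigma_mul_le N 0 _ hl) fun l hl => rowSigma_mul_le N 1 _ hl
  · rw [min_eq_left (by linarith)]
    have := density_row hj hk A B (δ0 := rowSigma N 0 (kfold B k))
      (δ1 := rowSigma N 0 (kfold B k)) (rowSigma_nonneg _ _ _) le_rfl
      (fun l hl => rowSigma_mul_le N 0 _ hl) fun l hl => by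
        refine le_trans ?_ (rowSigma_mul_le N 1 _ hl)
        exact mul_le_mul_of_nonneg_right h (Nat.cast_nonneg l)
    rwa [add_self_div_two] at this

theorem density_exact {N j k : ℕ} (hj : 0 < j) (hk : j < k) (A B : Set (ℕ × ℕ))
    (h : 2 * sigma N (kfold B k) ≤ rowSigma N 0 (kfold B k) + rowSigma N 1 (kfold B k)) :
    sigma N A ^ (1 - (j : ℝ) / k) * sigma N (kfold B k) ^ ((j : ℝ) / k) ≤
      sigma N (msum A (kfold B j)) := by
  obtain ⟨hθ0, _⟩ := theta_pos hj hk
  refine le_trans (mul_le_mul_of_nonneg_left ?_ (Real.rpow_nonneg (sigma_nonneg _ _) _))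
    (density_min hj hk A B)
  refine Real.rpow_le_rpow (sigma_nonneg _ _) (le_min (sigma_le_rowSigma _ _) ?_) hθ0.le
  linarith

end Pool.Agent.PlunRow
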