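import Mathlib

/-!
# The limit of the powers and the final inequality
-/

set_option autoImplicit false

open Finset

namespace Pool.Agent.PlunRow

/-- exponential growth beats polynomial growth -/
theorem le_of_pow_le_poly {A B C : ℝ} {d : ℕ} (hB : 0 ≤ B)
    (h : ∀ n : ℕ, 1 ≤ n → A ^ n ≤ C * (n : ℝ) ^ d * B ^ n) : A ≤ B := by
  by_contra hlt
  push Not at hlt
  rcases hB.eq_or_lt with hB0 | hB0
  · have h1 := h 1 le_rfl
    rw [← hB0] at h1 hlt
    simp at h1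
    linarith
  have hr : 1 < A / B := by rwa [one_lt_div hB0]
  have hlim := tendsto_pow_const_div_const_pow_of_one_lt d hr
  have hC : 0 < C := by
    have h1 := h 1 le_rfl
    simp at h1
    by_contra hC
    push Not at hC
    nlinarith [mul_nonneg (neg_nonneg.2 hC) hB0.le]
  have hev := hlim.eventually (gt_mem_nhds (show (0 : ℝ) < 1 / C by positivity))
  obtain ⟨N, hN⟩ := Filter.eventually_atTop.1 hev
  have h2 := hN (max N 1) (le_max_left _ _)
  have h3 := h (max N 1) (le_max_right _ _)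
  set n := max N 1
  have hBn : 0 < B ^ n := pow_pos hB0 n
  have hAn : 0 < A ^ n := pow_pos (hB0.trans hlt) n
  rw [div_pow, div_div_eq_mul_div, div_lt_div_iff₀ hAn hC, one_mul] at h2
  nlinarith

/-- Taking the limit `n → ∞` of the bounds in the `n`-th power. -/
theorem power_limit {k j c : ℕ} (hj : 0 < j) (hk : j < k) {F0 F1 R0 R1 v0 v1 M : ℝ}
    (hF0 : 0 ≤ F0) (hF1 : 0 ≤ F1) (hR0 : 0 ≤ R0) (hR1 : 0 ≤ R1) (hv0 : 0 ≤ v0) (hv1 : 0 ≤ v1)
    (hM : 0 ≤ M)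
    (h : ∀ n m : ℕ, m ≤ n →
      ((n.choose m : ℝ) * F0 ^ (n - m) * F1 ^ m) ^ k ≤
        ((k : ℝ) * n + 1) ^ c * M * (R1 ^ n) ^ j *
          ((n.choose m : ℝ) * R0 ^ (n - m) * R1 ^ m) ^ (k - j)) :
    v0 ^ (1 - (j : ℝ) / k) * F0 + v1 ^ (1 - (j : ℝ) / k) * F1 ≤
      R1 ^ ((j : ℝ) / k) * (v0 * R0 + v1 * R1) ^ (1 - (j : ℝ) / k) := by
  have hk0 : 0 < k := hj.trans hk
  have hk0' : (0 : ℝ) < k := by exact_mod_cast hk0
  have hkn : (k : ℝ) ≠ 0 := hk0'.ne'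
  have hs : (1 - (j : ℝ) / k) = ((k - j : ℕ) : ℝ) * (1 / k) := by
    rw [Nat.cast_sub hk.le]
    field_simp
  have hrt : ∀ v : ℝ, 0 ≤ v → (v ^ (1 - (j : ℝ) / k)) ^ k = v ^ (k - j) := by
    intro v hv
    rw [← Real.rpow_natCast (v ^ (1 - (j : ℝ) / k)) k, ← Real.rpow_mul hv, hs]
    rw [show ((k - j : ℕ) : ℝ) * (1 / k) * k = ((k - j : ℕ) : ℝ) by field_simp]
    rw [Real.rpow_natCast]
  set w0 := v0 ^ (1 - (j : ℝ) / k) with hw0
  set w1 := v1 ^ (1 - (j : ℝ) / k) with hw1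
  have hw0n : 0 ≤ w0 := Real.rpow_nonneg hv0 _
  have hw1n : 0 ≤ w1 := Real.rpow_nonneg hv1 _
  have hw0k : w0 ^ k = v0 ^ (k - j) := hrt v0 hv0
  have hw1k : w1 ^ k = v1 ^ (k - j) := hrt v1 hv1
  set X := v0 * R0 + v1 * R1 with hX
  have hX0 : 0 ≤ X := by positivity
  set g0 := w0 * F0 with hg0
  set g1 := w1 * F1 with hg1
  have hg0n : 0 ≤ g0 := by positivity
  have hg1n : 0 ≤ g1 := by positivity
  -- a single term
  have hterm : ∀ n m : ℕ, m ≤ n →
      ((n.choose m : ℝ) * g0 ^ (n - m) * g1 ^ m) ^ k ≤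
        ((k : ℝ) * n + 1) ^ c * M * (R1 ^ n) ^ j * (X ^ n) ^ (k - j) := by
    intro n m hm
    have h1 := h n m hm
    have hv : (0 : ℝ) ≤ (v0 ^ (n - m) * v1 ^ m) ^ (k - j) := by positivity
    have h2 := mul_le_mul_of_nonneg_right h1 hv
    have e1 : ((n.choose m : ℝ) * F0 ^ (n - m) * F1 ^ m) ^ k *
        (v0 ^ (n - m) * v1 ^ m) ^ (k - j) = ((n.choose m : ℝ) * g0 ^ (n - m) * g1 ^ m) ^ k := by
      rw [hg0, hg1]
      have a0 : (v0 ^ (n - m)) ^ (k - j) = (w0 ^ (n - m)) ^ k := by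
        rw [← pow_mul, mul_comm, pow_mul, ← hw0k, ← pow_mul, ← pow_mul, mul_comm]
      have a1 : (v1 ^ m) ^ (k - j) = (w1 ^ m) ^ k := by
        rw [← pow_mul, mul_comm, pow_mul, ← hw1k, ← pow_mul, ← pow_mul, mul_comm]
      rw [mul_pow (v0 ^ (n - m)), a0, a1, ← mul_pow, ← mul_pow]
      congr 1
      rw [mul_pow, mul_pow]
      ring
    have e2 : ((k : ℝ) * n + 1) ^ c * M * (R1 ^ n) ^ j *
          ((n.choose m : ℝ) * R0 ^ (n - m) * R1 ^ m) ^ (k - j) *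
          (v0 ^ (n - m) * v1 ^ m) ^ (k - j) =
        ((k : ℝ) * n + 1) ^ c * M * (R1 ^ n) ^ j *
          ((v0 * R0) ^ (n - m) * (v1 * R1) ^ m * (n.choose m : ℝ)) ^ (k - j) := by
      rw [mul_assoc, ← mul_pow]
      congr 2
      rw [mul_pow, mul_pow]
      ring
    rw [e1, e2] at h2
    refine h2.trans ?_
    have h3 : (v0 * R0) ^ (n - m) * (v1 * R1) ^ m * (n.choose m : ℝ) ≤ X ^ n := by
      rw [hX, add_comm (v0 * R0), add_pow]
      have : (v0 * R0) ^ (n - m) * (v1 * R1) ^ m * (n.choose m : ℝ) =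
          (v1 * R1) ^ m * (v0 * R0) ^ (n - m) * (n.choose m : ℝ) := by ring
      rw [this]
      exact Finset.single_le_sum
        (f := fun i => (v1 * R1) ^ i * (v0 * R0) ^ (n - i) * (n.choose i : ℝ))
        (fun i _ => by positivity) (Finset.mem_range.2 (Nat.lt_succ_of_le hm))
    have h4 : (0 : ℝ) ≤ (v0 * R0) ^ (n - m) * (v1 * R1) ^ m * (n.choose m : ℝ) := by positivity
    have h5 : (0 : ℝ) ≤ ((k : ℝ) * n + 1) ^ c * M * (R1 ^ n) ^ j := by positivity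
    exact mul_le_mul_of_nonneg_left (pow_le_pow_left₀ h4 h3 _) h5
  -- the sum
  have hsum : ∀ n : ℕ, ((g0 + g1) ^ k) ^ n ≤
      ((n : ℝ) + 1) ^ k * (((k : ℝ) * n + 1) ^ c * M) * (R1 ^ j * X ^ (k - j)) ^ n := by
    intro n
    have hne : (Finset.range (n + 1)).Nonempty := ⟨0, by simp⟩
    obtain ⟨m, hm, hmax⟩ := Finset.exists_max_image (Finset.range (n + 1))
      (fun i => (n.choose i : ℝ) * g0 ^ (n - i) * g1 ^ i) hne
    have hm' : m ≤ n := Nat.lt_succ_iff.1 (Finset.mem_range.1 hm)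
    have h1 : (g0 + g1) ^ n ≤ ((n : ℝ) + 1) * ((n.choose m : ℝ) * g0 ^ (n - m) * g1 ^ m) := by
      rw [add_comm g0, add_pow]
      have : ∑ i ∈ Finset.range (n + 1), g1 ^ i * g0 ^ (n - i) * (n.choose i : ℝ) ≤
          ∑ _i ∈ Finset.range (n + 1), ((n.choose m : ℝ) * g0 ^ (n - m) * g1 ^ m) := by
        refine Finset.sum_le_sum fun i hi => ?_
        have := hmax i hi
        calc g1 ^ i * g0 ^ (n - i) * (n.choose i : ℝ) = (n.choose i : ℝ) * g0 ^ (n - i) * g1 ^ i := by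
              ring
          _ ≤ _ := this
      refine this.trans ?_
      rw [Finset.sum_const, Finset.card_range, nsmul_eq_mul]
      push_cast
      exact le_rfl
    have h0 : (0 : ℝ) ≤ (g0 + g1) ^ n := by positivity
    have h2 := pow_le_pow_left₀ h0 h1 k
    rw [mul_pow ((n : ℝ) + 1)] at h2
    have h3 := mul_le_mul_of_nonneg_left (hterm n m hm')
      (show (0 : ℝ) ≤ ((n : ℝ) + 1) ^ k by positivity)
    have h4 := h2.trans h3
    calc ((g0 + g1) ^ k) ^ n = ((g0 + g1) ^ n) ^ k := by rw [← pow_mul, ← pow_mul, mul_comm]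
      _ ≤ _ := h4
      _ = _ := by
        rw [mul_pow (R1 ^ j), ← pow_mul R1 n j, ← pow_mul R1 j n, ← pow_mul X n, ← pow_mul X _ n,
          mul_comm n j, mul_comm n (k - j)]
        ring
  -- the limit
  have hlim : (g0 + g1) ^ k ≤ R1 ^ j * X ^ (k - j) := by
    refine le_of_pow_le_poly (C := 2 ^ k * (((k : ℝ) + 1) ^ c * M)) (d := k + c)
      (by positivity) fun n hn => (hsum n).trans ?_
    have hn1 : (1 : ℝ) ≤ n := by exact_mod_cast hn
    have hB : (0 : ℝ) ≤ (R1 ^ j * X ^ (k - j)) ^ n := by positivity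
    refine mul_le_mul_of_nonneg_right ?_ hB
    have i1 : ((n : ℝ) + 1) ^ k ≤ (2 * n) ^ k := pow_le_pow_left₀ (by positivity) (by linarith) k
    have i2 : ((k : ℝ) * n + 1) ^ c ≤ (((k : ℝ) + 1) * n) ^ c :=
      pow_le_pow_left₀ (by positivity) (by nlinarith) c
    calc ((n : ℝ) + 1) ^ k * (((k : ℝ) * n + 1) ^ c * M)
        ≤ (2 * n) ^ k * ((((k : ℝ) + 1) * n) ^ c * M) := by
          refine mul_le_mul i1 (mul_le_mul_of_nonneg_right i2 hM) (by positivity) (by positivity)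
      _ = 2 ^ k * (((k : ℝ) + 1) ^ c * M) * (n : ℝ) ^ (k + c) := by
          rw [mul_pow, mul_pow, pow_add]
          ring
  -- the root
  have hgn : 0 ≤ g0 + g1 := by positivity
  have hRn : 0 ≤ R1 ^ ((j : ℝ) / k) * X ^ (1 - (j : ℝ) / k) := by positivity
  refine le_of_pow_le_pow_left₀ hk0.ne' hRn ?_
  refine hlim.trans (le_of_eq ?_)
  rw [mul_pow, hrt X hX0]
  congr 1
  rw [← Real.rpow_natCast (R1 ^ ((j : ℝ) / k)) k, ← Real.rpow_mul hR1]
  rw [show (j : ℝ) / k * k = (j : ℝ) by field_simp]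
  rw [Real.rpow_natCast]

/-- The final inequality. -/
theorem final {θ y τ r0 r1 : ℝ} (h0 : 0 < θ) (h1 : θ < 1) (hy : 1 / 2 ≤ y) (hy1 : y ≤ 1)
    (hτ : 0 ≤ τ) (hτ1 : τ ≤ 1 / 2) (hr0 : 0 ≤ r0) (hr1 : 0 ≤ r1)
    (E0 : y ^ θ * (1 - (2 - 2 ^ θ) * τ) ≤ r0)
    (E1 : (1 - y) * (1 - τ) + y * τ ≤ r1 ^ θ * ((1 - y) * r0 + y * r1) ^ (1 - θ)) :
    1 ≤ r0 + r1 := by
  by_contra hlt
  push Not at hlt
  have hy0 : 0 < y := by linarith
  have hX : 0 ≤ (1 - y) * r0 + y * r1 := by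
    have := mul_nonneg (sub_nonneg.2 hy1) hr0
    positivity
  have amgm := Real.geom_mean_le_arith_mean2_weighted h0.le (sub_nonneg.2 h1.le) hr1 hX
    (by ring)
  -- Bernoulli
  have hb : (1 + (1 - y) / y) ^ θ ≤ 1 + θ * ((1 - y) / y) :=
    rpow_one_add_le_one_add_mul_self (by
      have : 0 ≤ (1 - y) / y := div_nonneg (sub_nonneg.2 hy1) hy0.le
      linarith) h0.le h1.le
  have hyy : y * (1 + (1 - y) / y) = 1 := by field_simp; ring
  have hpos : (0 : ℝ) < 1 + (1 - y) / y := by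
    have : 0 ≤ (1 - y) / y := div_nonneg (sub_nonneg.2 hy1) hy0.le
    linarith
  set a := y ^ θ with ha
  have ha0 : 0 < a := Real.rpow_pos_of_pos hy0 _
  have hab : a * (1 + (1 - y) / y) ^ θ = 1 := by
    rw [ha, ← Real.mul_rpow hy0.le hpos.le, hyy, Real.one_rpow]
  have hB1 : 1 ≤ a * (1 + θ * ((1 - y) / y)) :=
    hab.symm.le.trans (mul_le_mul_of_nonneg_left hb ha0.le)
  have hB2 : y ≤ a * (y + θ * (1 - y)) := by
    have := mul_le_mul_of_nonneg_left hB1 hy0.le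
    have e : y * (a * (1 + θ * ((1 - y) / y))) = a * (y + θ * (1 - y)) := by
      field_simp
    rw [e, mul_one] at this
    exact this
  -- the value at 1/2
  set b := (2 : ℝ) ^ θ with hbdef
  have hb1 : 1 ≤ a * b := by
    rw [ha, hbdef, ← Real.mul_rpow hy0.le (by norm_num)]
    exact Real.one_le_rpow (by linarith) h0.le
  -- abbreviations
  obtain ⟨e, he⟩ : ∃ e, e = 1 - y := ⟨_, rfl⟩
  obtain ⟨s, hs⟩ : ∃ s, s = 1 - θ := ⟨_, rfl⟩
  have hye : y = 1 - e := by linarith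
  have hθs : θ = 1 - s := by linarith
  have he0 : 0 ≤ e := by linarith
  have he1 : e ≤ 1 / 2 := by linarith
  have hs0 : 0 < s := by linarith
  have hs1 : s < 1 := by linarith
  have hse : s * e ≤ 1 / 2 * s := by nlinarith
  have hu : 0 < 1 - 2 * (s * e) := by nlinarith
  have hv : 0 < 1 - s * e := by nlinarith
  have hB3 : 1 - e ≤ a * (1 - s * e) := by
    have : y + θ * (1 - y) = 1 - s * e := by rw [hye, hθs]; ring
    rw [this] at hB2
    linarith
  -- the value at 0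
  have hz : 1 - (1 + s) * e ≤ a * (1 - 2 * (s * e)) := by
    have q1 : (1 - 2 * (s * e)) * (1 - e) ≤ (1 - 2 * (s * e)) * (a * (1 - s * e)) :=
      mul_le_mul_of_nonneg_left hB3 hu.le
    have q2 : (1 - (1 + s) * e) * (1 - s * e) ≤ (1 - 2 * (s * e)) * (1 - e) := by
      have : 0 ≤ s * (1 - s) * e ^ 2 := by
        have : 0 ≤ 1 - s := by linarith
        positivity
      nlinarith
    have q3 : (1 - (1 + s) * e) * (1 - s * e) ≤ (a * (1 - 2 * (s * e))) * (1 - s * e) := by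
      calc _ ≤ _ := q2
        _ ≤ _ := q1
        _ = _ := by ring
    exact le_of_mul_le_mul_right q3 hv
  have hh : 1 / 2 * (1 - 2 * (s * e)) ≤ a * (1 - 2 * (s * e)) * (b / 2) := by
    have := mul_le_mul_of_nonneg_left hb1 hu.le
    nlinarith
  have key : 1 - (1 + s) * e - τ * (1 - 2 * e) ≤
      a * (1 - (2 - b) * τ) * (1 - 2 * (s * e)) := by
    have k1 := mul_le_mul_of_nonneg_left hz (show (0 : ℝ) ≤ 1 - 2 * τ by linarith)
    have k2 := mul_le_mul_of_nonneg_left hh (show (0 : ℝ) ≤ 2 * τ by linarith)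
    have k3 := add_le_add k1 k2
    have e1 : (1 - 2 * τ) * (1 - (1 + s) * e) + 2 * τ * (1 / 2 * (1 - 2 * (s * e))) =
        1 - (1 + s) * e - τ * (1 - 2 * e) := by ring
    have e2 : (1 - 2 * τ) * (a * (1 - 2 * (s * e))) +
        2 * τ * (a * (1 - 2 * (s * e)) * (b / 2)) =
        a * (1 - (2 - b) * τ) * (1 - 2 * (s * e)) := by ring
    rw [e1, e2] at k3
    exact k3
  have key2 : a * (1 - (2 - b) * τ) * (1 - 2 * (s * e)) ≤ r0 * (1 - 2 * (s * e)) :=
    mul_le_mul_of_nonneg_right E0 hu.le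
  have E2 := E1.trans amgm
  have E3 : e + τ * (1 - 2 * e) ≤ (1 - s * e) * r1 + s * e * r0 := by
    have t1 : (1 - y) * (1 - τ) + y * τ = e + τ * (1 - 2 * e) := by rw [hye]; ring
    have t2 : θ * r1 + (1 - θ) * ((1 - y) * r0 + y * r1) = (1 - s * e) * r1 + s * e * r0 := by
      rw [hye, hθs]; ring
    rw [t1, t2] at E2
    exact E2
  have E4 : (1 - s * e) * r1 < (1 - s * e) * (1 - r0) :=
    mul_lt_mul_of_pos_left (by linarith) hv
  nlinarith

end Pool.Agent.PlunRow
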