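import Pool.Agent.PlunRow.Count

/-!
# The labelled tensor power
-/

set_option autoImplicit false

open Finset Classical

namespace Pool.Agent.PlunRow

open Pool.Agent.PlunTwo

/-- The number of values of the product over all labels and all coordinates. -/
theorem card_values_two {P : Type} (k n : ℕ) (A : Finset P) (d : P → ℝ)
    (S : Finset (Fin k → Fin n → P)) (hS : ∀ a ∈ S, ∀ l s, a l s ∈ A) :
    (S.image fun a => ∏ l, ∏ s, d (a l s)).card ≤ (k * n + 1) ^ A.card := by
  refine (card_le_card ?_).trans (card_values (k * n) A d)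
  intro x hx
  obtain ⟨a, ha, rfl⟩ := mem_image.1 hx
  rw [mem_image]
  refine ⟨fun i => a (finProdFinEquiv.symm i).1 (finProdFinEquiv.symm i).2, ?_, ?_⟩
  · rw [Fintype.mem_piFinset]
    intro i
    exact hS a ha _ _
  · rw [Equiv.prod_comp finProdFinEquiv.symm (fun p : Fin k × Fin n => d (a p.1 p.2)),
      Fintype.prod_prod_type]

theorem whall_two {P Q : Type} (k n : ℕ) {A : Finset P} {T : Finset Q} {R : P → Q → Prop}
    {d : P → ℝ} (hd : ∀ a ∈ A, 0 ≤ d a) (h : WHall A T R d) :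
    WHall (Fintype.piFinset fun _ : Fin k => Fintype.piFinset fun _ : Fin n => A)
      (Fintype.piFinset fun _ : Fin k => Fintype.piFinset fun _ : Fin n => T)
      (fun a y => ∀ l s, R (a l s) (y l s)) fun a => ∏ l, ∏ s, d (a l s) := by
  refine whall_pi k (fun a ha => prod_nonneg fun s _ => hd _ ?_) (whall_pi n hd h)
  exact Fintype.mem_piFinset.1 ha s

section

variable (q n m : ℕ) (A B : Set (ℕ × ℕ))

/-- The steps which do not change the rows. -/
noncomputable def B0 : Finset (Fin n → ℕ × ℕ) :=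
  Fintype.piFinset fun _ => (box q 1).filter fun x => x ∈ B ∧ x.2 = 0

/-- The steps which may change the rows. -/
noncomputable def Bs : Finset (Fin n → ℕ × ℕ) :=
  Fintype.piFinset fun _ => (box q 1).filter fun x => x ∈ B

/-- The unused blocks at level `i`. -/
noncomputable def Ub (i : ℕ) : Finset (Fin n → ℕ × ℕ) :=
  (Fintype.piFinset fun _ => (box q 1).filter fun x => x ∈ msum A (kfold B i)).filter fun z =>
    cnt (fun x : ℕ × ℕ => x.2 = 1) z = m

/-- The used blocks at level `i`. -/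
noncomputable def Vb (i : ℕ) : Finset (Fin n → ℕ × ℕ) :=
  Fintype.piFinset fun _ => (tgt q).filter fun x => x ∈ msum A (kfold B i)

theorem mem_tgt {q : ℕ} {x : ℕ × ℕ} : x ∈ tgt q ↔ x ∈ box q 1 ∧ x.2 = 1 := by
  rw [tgt, mem_filter]

theorem reg : Reg (B0 q n B) (Bs q n B) (Ub q n m A B) (Vb q n A B)
    (fun z => (∀ s, z s ∈ box q 1) ∧ cnt (fun x : ℕ × ℕ => x.2 = 1) z = m)
    (fun z => ∀ s, z s ∈ tgt q) (fun i z => ∀ s, z s ∈ msum A (kfold B i)) where
  memU i z := by
    rw [Ub, mem_filter, Fintype.mem_piFinset]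
    constructor
    · rintro ⟨h1, h2⟩
      exact ⟨⟨fun s => (mem_filter.1 (h1 s)).1, h2⟩, fun s => (mem_filter.1 (h1 s)).2⟩
    · rintro ⟨⟨h1, h2⟩, h3⟩
      exact ⟨fun s => mem_filter.2 ⟨h1 s, h3 s⟩, h2⟩
  memV i z := by
    rw [Vb, Fintype.mem_piFinset]
    constructor
    · intro h1
      exact ⟨fun s => (mem_filter.1 (h1 s)).1, fun s => (mem_filter.1 (h1 s)).2⟩
    · rintro ⟨h1, h3⟩ s
      exact mem_filter.2 ⟨h1 s, h3 s⟩
  hU z β hβ h := by
    rw [B0, Fintype.mem_piFinset] at hβ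
    refine ⟨fun s => down_box q 1 _ _ (h.1 s), ?_⟩
    rw [← h.2]
    unfold cnt
    congr 1
    ext s
    have := (mem_filter.1 (hβ s)).2.2
    simp [this]
  hV z β hβ h s := by
    rw [B0, Fintype.mem_piFinset] at hβ
    have h1 := h s
    rw [mem_tgt] at h1 ⊢
    have := (mem_filter.1 (hβ s)).2.2
    refine ⟨down_box q 1 _ _ h1.1, ?_⟩
    have h2 := h1.2
    simp only [Pi.add_apply, Prod.snd_add, this, add_zero] at h2
    exact h2
  hUV z hz β hβ w h := by
    rw [B0, Fintype.mem_piFinset] at hβ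
    refine ⟨fun s => down_box q 1 _ (w s) (mem_tgt.1 (h s)).1, ?_⟩
    rw [← hz.2]
    unfold cnt
    congr 1
    ext s
    have := (mem_filter.1 (hβ s)).2.2
    simp [this]
  hC0 i z hz β hβ s := by
    rw [B0, Fintype.mem_piFinset] at hβ
    exact msum_kfold_succ (hz s) (mem_filter.1 (hβ s)).2.1
  hCs i z hz β hβ s := by
    rw [Bs, Fintype.mem_piFinset] at hβ
    exact msum_kfold_succ (hz s) (mem_filter.1 (hβ s)).2

end

theorem conn_of {q n k : ℕ} {B : Set (ℕ × ℕ)} {a y : Fin n → ℕ × ℕ} {l : ℕ} (hl : l < k)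
    (hy : ∀ s, y s ∈ tgt q) (h : ∀ s, ∃ w ∈ kfold B k, a s + w = y s) :
    Conn k (B0 q n B) (Bs q n B) l a y := by
  choose w hw hw2 using h
  have hrow : ∀ s, (w s).2 ≤ 1 := by
    intro s
    have h1 := (mem_tgt.1 (hy s)).2
    rw [← hw2 s, Prod.snd_add] at h1
    omega
  choose g hg1 hg2 hg3 using fun s => kfold_label (hw s) (hrow s) hl
  have hbox : ∀ s, ∀ t < k, g s t ∈ box q 1 := by
    intro s t ht
    have h1 := (mem_tgt.1 (hy s)).1
    rw [← hw2 s, add_comm] at h1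
    have h2 := down_box q 1 _ _ h1
    rw [← hg3 s, ← add_sum_erase _ _ (mem_range.2 ht)] at h2
    exact down_box q 1 _ _ h2
  refine ⟨fun t s => g s t, ?_, fun t ht hne => ?_, ?_⟩
  · rw [Bs, Fintype.mem_piFinset]
    intro s
    exact mem_filter.2 ⟨hbox s l hl, hg1 s l hl⟩
  · rw [B0, Fintype.mem_piFinset]
    intro s
    exact mem_filter.2 ⟨hbox s t ht, hg1 s t ht, hg2 s t ht hne⟩
  · funext s
    rw [Pi.add_apply, Finset.sum_apply, hg3 s, hw2 s]

theorem card_Vb (q n : ℕ) (A B : Set (ℕ × ℕ)) (j : ℕ) :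
    (Vb q n A B j).card = (row 1 (msum A (kfold B j)) (q + 1)) ^ n := by
  rw [Vb, Fintype.card_piFinset, prod_const, card_univ, Fintype.card_fin]
  congr 1
  rw [tgt, filter_filter, box_card]
  rw [sum_range_succ, sum_range_one]
  simp [row]

theorem card_Ub (q n m : ℕ) (A B : Set (ℕ × ℕ)) (j : ℕ) :
    ((Ub q n m A B j).card : ℝ) = (n.choose m : ℝ) *
      (row 0 (msum A (kfold B j)) (q + 1) : ℝ) ^ (n - m) *
        (row 1 (msum A (kfold B j)) (q + 1) : ℝ) ^ m := by
  rw [Ub, card_cnt]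
  congr 2
  · congr 1
    · congr 1
      rw [filter_filter, box_card, sum_range_succ, sum_range_one]
      simp [row]
  · rw [filter_filter, box_card, sum_range_succ, sum_range_one]
    simp [row]

/-- The bound in the labelled `n`-th power. -/
theorem tensor {q k j : ℕ} (hj : 0 < j) (hk : j ≤ k) (A B : Set (ℕ × ℕ)) {d : ℕ × ℕ → ℝ}
    (hd : ∀ a ∈ src q A, 0 ≤ d a)
    (hH : WHall (src q A) (tgt q) (fun a y => ∃ w ∈ kfold B k, a + w = y) d) (n m : ℕ)
    (hm : m ≤ n) :
    ((n.choose m : ℝ) * (∑ x ∈ (src q A).filter (fun x => ¬ x.2 = 1), d x ^ ((j : ℝ) / k)) ^ (n - m)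
      * (∑ x ∈ (src q A).filter (fun x => x.2 = 1), d x ^ ((j : ℝ) / k)) ^ m) ^ k ≤
      ((k : ℝ) * n + 1) ^ (src q A).card * (k.choose j : ℝ) *
        ((row 1 (msum A (kfold B j)) (q + 1) : ℝ) ^ n) ^ j *
          ((n.choose m : ℝ) * (row 0 (msum A (kfold B j)) (q + 1) : ℝ) ^ (n - m) *
            (row 1 (msum A (kfold B j)) (q + 1) : ℝ) ^ m) ^ (k - j) := by
  have hk0 : (0 : ℝ) < k := by exact_mod_cast hj.trans_le hk
  have hjR : (0 : ℝ) < j := by exact_mod_cast hj
  set θ : ℝ := (j : ℝ) / k with hθ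
  have hθ0 : 0 < θ := div_pos hjR hk0
  set Wm := (Fintype.piFinset fun _ : Fin n => src q A).filter fun a =>
    cnt (fun x : ℕ × ℕ => x.2 = 1) a = m with hWm
  set S0 : Finset (Fin k → Fin n → ℕ × ℕ) := Fintype.piFinset fun _ => Wm with hS0
  set D : (Fin k → Fin n → ℕ × ℕ) → ℝ := fun a => ∏ l, ∏ s, d (a l s) with hD
  have hmem : ∀ a ∈ S0, ∀ l s, a l s ∈ src q A := by
    intro a ha l s
    have h1 := Fintype.mem_piFinset.1 ha l
    exact Fintype.mem_piFinset.1 (mem_filter.1 h1).1 s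
  have hDn : ∀ a ∈ S0, 0 ≤ D a := fun a ha =>
    prod_nonneg fun l _ => prod_nonneg fun s _ => hd _ (hmem a ha l s)
  set Xb : ℝ := (k.choose j : ℝ) * ((row 1 (msum A (kfold B j)) (q + 1) : ℝ) ^ n) ^ j *
    ((n.choose m : ℝ) * (row 0 (msum A (kfold B j)) (q + 1) : ℝ) ^ (n - m) *
      (row 1 (msum A (kfold B j)) (q + 1) : ℝ) ^ m) ^ (k - j) with hXb
  have hXb0 : 0 ≤ Xb := by positivity
  have hlev : ∀ t : ℝ, 0 < t → t ^ θ * ((S0.filter fun a => t ≤ D a).card : ℝ) ≤ Xb := by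
    intro t ht
    have key := label_bound (k := k) (reg q n m A B) (S0 := S0.filter fun a => t ≤ D a)
      (fun a ha l => ?_) (W := Fintype.piFinset fun _ => tgt q)
      (fun z hz => Fintype.mem_piFinset.1 hz) hk hj ht.le ?_
    · rw [card_Vb, card_Ub] at key
      rw [hXb]
      push_cast at key
      exact key
    · have h1 := Fintype.mem_piFinset.1 (mem_filter.1 ha).1 l
      rw [hWm, mem_filter, Fintype.mem_piFinset] at h1
      rw [Ub, mem_filter, Fintype.mem_piFinset]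
      refine ⟨fun s => ?_, h1.2⟩
      have h2 := h1.1 s
      rw [src, mem_filter] at h2
      exact mem_filter.2 ⟨h2.1, a l s, h2.2, 0, rfl, add_zero _⟩
    · intro Z hZ
      have hZS : ∀ a ∈ Z, a ∈ S0 ∧ t ≤ D a := fun a ha => mem_filter.1 (hZ ha)
      have hZ' : Z ⊆ Fintype.piFinset fun _ : Fin k => Fintype.piFinset fun _ : Fin n =>
          src q A := by
        intro a ha
        rw [Fintype.mem_piFinset]
        intro l
        rw [Fintype.mem_piFinset]
        exact hmem a (hZS a ha).1 l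
      have h1 := whall_two k n hd hH Z hZ'
      have h2 : t * (Z.card : ℝ) ≤ ∑ a ∈ Z, D a := by
        have := card_nsmul_le_sum Z D t fun a ha => (hZS a ha).2
        rw [nsmul_eq_mul] at this
        linarith
      refine (h2.trans h1).trans ?_
      refine Nat.cast_le.2 (card_le_card fun y hy => ?_)
      simp only [mem_filter] at hy ⊢
      obtain ⟨hy1, a, ha, hay⟩ := hy
      refine ⟨hy1, a, ha, fun l => ?_⟩
      exact conn_of l.2 (fun s => Fintype.mem_piFinset.1
        (Fintype.mem_piFinset.1 hy1 l) s) (hay l)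
  have hsum := exists_level S0 D hDn θ hθ0 Xb hlev
  have hval : ((S0.image D).card : ℝ) ≤ ((k : ℝ) * n + 1) ^ (src q A).card := by
    have := card_values_two k n (src q A) d S0 hmem
    exact_mod_cast this
  have hLHS : ∑ a ∈ S0, D a ^ θ = ((n.choose m : ℝ) *
      (∑ x ∈ (src q A).filter (fun x => ¬ x.2 = 1), d x ^ θ) ^ (n - m) *
      (∑ x ∈ (src q A).filter (fun x => x.2 = 1), d x ^ θ) ^ m) ^ k := by
    have e0 : (n.choose m : ℝ) *
        (∑ x ∈ (src q A).filter (fun x => ¬ x.2 = 1), d x ^ θ) ^ (n - m) *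
        (∑ x ∈ (src q A).filter (fun x => x.2 = 1), d x ^ θ) ^ m =
        ∑ a ∈ Wm, ∏ s, d (a s) ^ θ := by
      convert (sum_cnt n m (src q A) (fun x : ℕ × ℕ => x.2 = 1) fun x => d x ^ θ).symm
    rw [e0]
    have e1 : ∀ a ∈ S0, D a ^ θ = ∏ l, ∏ s, d (a l s) ^ θ := by
      intro a ha
      rw [hD]
      simp only
      rw [← Real.finset_prod_rpow _ _ fun l _ => prod_nonneg fun s _ => hd _ (hmem a ha l s)]
      refine prod_congr rfl fun l _ => ?_
      rw [← Real.finset_prod_rpow _ _ fun s _ => hd _ (hmem a ha l s)]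
    rw [sum_congr rfl e1]
    have e2 := (prod_univ_sum (fun _ : Fin k => Wm) fun _ (b : Fin n → ℕ × ℕ) =>
      ∏ s, d (b s) ^ θ).symm
    rw [hS0, e2, prod_const, card_univ, Fintype.card_fin]
  rw [← hLHS]
  refine hsum.trans ?_
  have := mul_le_mul_of_nonneg_right hval hXb0
  refine this.trans (le_of_eq ?_)
  rw [hXb]
  ring

end Pool.Agent.PlunRow
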