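import Pool.Agent.PlunTwo.Main
import Pool.Agent.PlunRow.Tensor
import Pool.Agent.PlunRow.Limit

/-!
# The exact two-row inequality for the row-wise density of `k B`
-/

set_option autoImplicit false

open Finset Classical

namespace Pool.Agent.PlunRow

open Pool.Agent.PlunTwo

/-- The first row, with two slopes. -/
theorem zero_row {q j k : ℕ} (hj : 0 < j) (hk : j < k) (A B : Set (ℕ × ℕ)) {α δ b : ℝ}
    (hα : 0 < α) (hδ : 0 < δ)
    (hA : ∀ l ≤ q + 1, α * (l : ℝ) ≤ row 0 A l)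
    (hb : ∀ l ≤ q + 1, 2 * α * (l : ℝ) - row 0 A l ≤ b)
    (hK : ∀ l ≤ q + 1, δ * (l : ℝ) ≤ row 0 (kfold B k) l) :
    (δ / (2 * α)) ^ ((j : ℝ) / k) * (2 * α * (q + 1 : ℕ) - (2 - 2 ^ ((j : ℝ) / k)) * b) ≤
      row 0 (msum A (kfold B j)) (q + 1) := by
  obtain ⟨hθ0, hθ1⟩ := theta_pos hj hk
  set θ : ℝ := (j : ℝ) / k with hθ
  set t : ℝ := δ / (2 * α) with ht
  have ht0 : 0 < t := div_pos hδ (by linarith)
  obtain ⟨ha₁, ha₂, hconc⟩ := two_slopes hθ0 hθ1.le ht0 (show t < 2 * t by linarith)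
  have htα : t * (2 * α) = δ := by
    rw [ht]
    field_simp
  have hcut : ∀ Z ⊆ lev (box q 0) A B 0,
      t * (2 * α * (q + 1 : ℕ) - b) ≤ t * ((lev (box q 0) A B 0 \ Z).card : ℝ) +
        ((img ((box q 0).filter fun x => x ∈ B) (lev (box q 0) A B) Z k).card : ℝ) ∧
      δ * (q + 1 : ℕ) ≤ 2 * t * ((lev (box q 0) A B 0 \ Z).card : ℝ) +
        ((img ((box q 0).filter fun x => x ∈ B) (lev (box q 0) A B) Z k).card : ℝ) := by
    intro Z hZ
    obtain ⟨a, ha, hX, hI⟩ := data_one k hZ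
    have hX' : (row 0 A a : ℝ) ≤ ((lev (box q 0) A B 0 \ Z).card : ℝ) := by exact_mod_cast hX
    have hI' : (row 0 (kfold B k) (q + 1 - a) : ℝ) ≤ ((img ((box q 0).filter fun x => x ∈ B)
      (lev (box q 0) A B) Z k).card : ℝ) := by exact_mod_cast hI
    have g1 := hA a ha
    have g2 := hK (q + 1 - a) (by omega)
    have g3 := hb a ha
    rw [Nat.cast_sub ha] at g2
    have g4 : t * (2 * α * (a : ℝ) - b) ≤ t * ((lev (box q 0) A B 0 \ Z).card : ℝ) :=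
      mul_le_mul_of_nonneg_left (by linarith) ht0.le
    have g5 : t * (α * (a : ℝ)) ≤ t * ((lev (box q 0) A B 0 \ Z).card : ℝ) :=
      mul_le_mul_of_nonneg_left (by linarith) ht0.le
    have g6 : t * (2 * α * (a : ℝ)) = δ * a := by
      rw [← mul_assoc, htα]
    have g7 : t * (2 * α * ((q + 1 : ℕ) : ℝ)) = δ * ((q + 1 : ℕ) : ℝ) := by
      rw [← mul_assoc, htα]
    constructor
    · nlinarith
    · nlinarith
  have key := path_bound (B := (box q 0).filter fun x => x ∈ B) (k := k) (j := j) (by omega)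
    hk.le hj ha₁ ha₂ hconc _ (lev (box q 0) A B) le_rfl (conv_lev (down_box q 0) A B)
    (t * (2 * α * (q + 1 : ℕ) - b)) (δ * (q + 1 : ℕ)) (fun Z hZ => (hcut Z hZ).1)
    (fun Z hZ => (hcut Z hZ).2)
  have e : ((lev (box q 0) A B j).card : ℝ) = row 0 (msum A (kfold B j)) (q + 1) := by
    rw [lev, cnt_zero]
  rw [e] at key
  refine le_trans (le_of_eq ?_) key
  have p1 : (2 * t) ^ θ = 2 ^ θ * t ^ θ := Real.mul_rpow (by norm_num) ht0.le
  have p2 : 2 * t - t = t := by ring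
  rw [p1, p2, ← htα]
  field_simp
  ring

/-- The sums of the powers of the densities. -/
theorem sum_dens_ge {q : ℕ} (A : Set (ℕ × ℕ)) {c0 c1 e0 e1 θ : ℝ} (hc0 : 0 ≤ c0) (hc1 : 0 ≤ c1)
    (he0 : 0 ≤ e0) (he1 : 0 ≤ e1) (hθ1 : θ ≤ 1) (hθ0 : 0 ≤ θ) :
    e0 ^ θ * min (row 0 A (q + 1) : ℝ) c0 ≤
      ∑ x ∈ (src q A).filter (fun x => ¬ x.2 = 1), dens A c0 c1 e0 e1 x ^ θ ∧
    e1 ^ θ * min (row 1 A (q + 1) : ℝ) c1 ≤
      ∑ x ∈ (src q A).filter (fun x => x.2 = 1), dens A c0 c1 e0 e1 x ^ θ := by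
  have hpow : ∀ e w : ℝ, 0 ≤ e → 0 ≤ w → w ≤ 1 → e ^ θ * w ≤ (e * w) ^ θ := by
    intro e w he hw hw1
    rw [Real.mul_rpow he hw]
    refine mul_le_mul_of_nonneg_left ?_ (Real.rpow_nonneg he _)
    rcases hw.eq_or_lt with h | h
    · rw [← h]
      exact Real.rpow_nonneg le_rfl _
    · have := Real.rpow_le_rpow_of_exponent_ge h hw1 hθ1
      rwa [Real.rpow_one] at this
  constructor
  · rw [← sum_cutw A hc0, mul_sum]
    have h1 : ∑ x ∈ (range (q + 1)).filter (fun x => (x, 0) ∈ A), e0 ^ θ * cutw A c0 0 x =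
        ∑ x ∈ range (q + 1), e0 ^ θ * cutw A c0 0 x := by
      refine sum_filter_of_ne fun x _ hne => ?_
      by_contra hcon
      exact hne (by rw [cutw_eq_zero hcon, mul_zero])
    rw [← h1]
    have h2 : ∑ x ∈ (range (q + 1)).filter (fun x => (x, 0) ∈ A), e0 ^ θ * cutw A c0 0 x ≤
        ∑ x ∈ (range (q + 1)).filter (fun x => (x, 0) ∈ A), dens A c0 c1 e0 e1 (x, 0) ^ θ := by
      refine sum_le_sum fun x _ => ?_
      unfold dens
      rw [if_pos rfl]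
      exact hpow _ _ he0 (cutw_nonneg _ _ _ _) (cutw_le_one _ _ _ _)
    refine h2.trans (le_of_eq ?_)
    refine sum_bij (fun x _ => (x, 0)) (fun x hx => ?_) (fun x _ y _ h => (Prod.ext_iff.1 h).1)
      (fun p hp => ?_) fun x _ => rfl
    · rw [mem_filter, mem_range] at hx
      rw [mem_filter, src, mem_filter, mem_box_iff]
      exact ⟨⟨⟨hx.1, by omega⟩, hx.2⟩, by norm_num⟩
    · obtain ⟨x, r⟩ := p
      rw [mem_filter, src, mem_filter, mem_box_iff] at hp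
      have hr : r = 0 := by
        have := hp.1.1.2
        have := hp.2
        simp only at this
        omega
      subst hr
      exact ⟨x, mem_filter.2 ⟨mem_range.2 hp.1.1.1, hp.1.2⟩, rfl⟩
  · rw [← sum_cutw A hc1, mul_sum]
    have h1 : ∑ x ∈ (range (q + 1)).filter (fun x => (x, 1) ∈ A), e1 ^ θ * cutw A c1 1 x =
        ∑ x ∈ range (q + 1), e1 ^ θ * cutw A c1 1 x := by
      refine sum_filter_of_ne fun x _ hne => ?_
      by_contra hcon
      exact hne (by rw [cutw_eq_zero hcon, mul_zero])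
    rw [← h1]
    have h2 : ∑ x ∈ (range (q + 1)).filter (fun x => (x, 1) ∈ A), e1 ^ θ * cutw A c1 1 x ≤
        ∑ x ∈ (range (q + 1)).filter (fun x => (x, 1) ∈ A), dens A c0 c1 e0 e1 (x, 1) ^ θ := by
      refine sum_le_sum fun x _ => ?_
      unfold dens
      rw [if_neg (by norm_num)]
      exact hpow _ _ he1 (cutw_nonneg _ _ _ _) (cutw_le_one _ _ _ _)
    refine h2.trans (le_of_eq ?_)
    refine sum_bij (fun x _ => (x, 1)) (fun x hx => ?_) (fun x _ y _ h => (Prod.ext_iff.1 h).1)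
      (fun p hp => ?_) fun x _ => rfl
    · rw [mem_filter, mem_range] at hx
      rw [mem_filter, src, mem_filter, mem_box_iff]
      exact ⟨⟨⟨hx.1, by omega⟩, hx.2⟩, rfl⟩
    · obtain ⟨x, r⟩ := p
      rw [mem_filter, src, mem_filter, mem_box_iff] at hp
      have hr : r = 1 := hp.2
      subst hr
      exact ⟨x, mem_filter.2 ⟨mem_range.2 hp.1.1.1, hp.1.2⟩, rfl⟩

/-- **The exact inequality** for both rows. -/
theorem two_rows_exact {q j k : ℕ} (hj : 0 < j) (hk : j < k) (A B : Set (ℕ × ℕ))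
    {α δ0 δ1 : ℝ} (hα : 0 < α) (hδ0 : 0 < δ0) (hδ1 : 0 ≤ δ1) (hδ : δ1 ≤ δ0)
    (hA0 : ∀ l ≤ q + 1, α * (l : ℝ) ≤ row 0 A l)
    (hA : ∀ l ≤ q + 1, 2 * α * (l : ℝ) ≤ (row 0 A l : ℝ) + row 1 A l)
    (hK0 : ∀ l ≤ q + 1, δ0 * (l : ℝ) ≤ row 0 (kfold B k) l)
    (hK1 : ∀ l ≤ q + 1, δ1 * (l : ℝ) ≤ row 1 (kfold B k) l) :
    α ^ (1 - (j : ℝ) / k) * ((δ0 + δ1) / 2) ^ ((j : ℝ) / k) * (2 * ((q + 1 : ℕ) : ℝ)) ≤
      (row 0 (msum A (kfold B j)) (q + 1) : ℝ) + row 1 (msum A (kfold B j)) (q + 1) := by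
  obtain ⟨hθ0, hθ1⟩ := theta_pos hj hk
  -- the cut
  obtain ⟨l0, hl0, hmax⟩ := exists_max_image (range (q + 1 + 1))
    (fun l => 2 * α * (l : ℝ) - row 0 A l) ⟨0, mem_range.2 (by omega)⟩
  rw [mem_range] at hl0
  set b : ℝ := 2 * α * (l0 : ℝ) - row 0 A l0 with hbdef
  have hb : ∀ l ≤ q + 1, 2 * α * (l : ℝ) - row 0 A l ≤ b := fun l hl =>
    hmax l (mem_range.2 (by omega))
  have hb' : ∃ l ≤ q + 1, b = 2 * α * (l : ℝ) - row 0 A l := ⟨l0, by omega, hbdef⟩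
  have hb0 : 0 ≤ b := by
    have := hb 0 (by omega)
    simpa [row] using this
  have hL : (0 : ℝ) < ((q + 1 : ℕ) : ℝ) := by positivity
  have hbL : b ≤ α * ((q + 1 : ℕ) : ℝ) := by
    have h1 := hA0 l0 (by omega)
    have h2 : (l0 : ℝ) ≤ ((q + 1 : ℕ) : ℝ) := by
      have : l0 ≤ q + 1 := by omega
      exact_mod_cast this
    have := mul_le_mul_of_nonneg_left h2 hα.le
    rw [hbdef]
    linarith
  set T : ℝ := 2 * α * ((q + 1 : ℕ) : ℝ) with hT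
  have hT0 : 0 < T := by positivity
  have hbT : b ≤ T / 2 := by
    rw [hT]
    linarith
  have hTb : 0 ≤ T - b := by linarith
  obtain ⟨htot0, htot1⟩ := cut_total A hA hb hb'
  rw [← hT] at htot0
  have he0 : 0 ≤ δ1 / (2 * α) := div_nonneg hδ1 (by linarith)
  have he1 : 0 ≤ δ0 / (2 * α) := div_nonneg hδ0.le (by linarith)
  -- `T0`
  have E0 := zero_row hj hk A B hα hδ0 hA0 hb hK0
  rw [← hT] at E0
  -- `T1`
  have hH := one_hall (k := k) A B hα hδ1 hδ hA hb0 hb hb' hK0 hK1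
  rw [← hT] at hH
  have hdn : ∀ a ∈ src q A, 0 ≤ dens A (T - b) b (δ1 / (2 * α)) (δ0 / (2 * α)) a := by
    intro a _
    unfold dens
    split_ifs
    · exact mul_nonneg he0 (cutw_nonneg _ _ _ _)
    · exact mul_nonneg he1 (cutw_nonneg _ _ _ _)
  have E1 := power_limit (c := (src q A).card) (M := (k.choose j : ℝ)) (v0 := δ1) (v1 := δ0)
    hj hk (sum_nonneg fun x hx => Real.rpow_nonneg (hdn x (mem_filter.1 hx).1) _)
    (sum_nonneg fun x hx => Real.rpow_nonneg (hdn x (mem_filter.1 hx).1) _)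
    (Nat.cast_nonneg (row 0 (msum A (kfold B j)) (q + 1)))
    (Nat.cast_nonneg (row 1 (msum A (kfold B j)) (q + 1))) hδ1 hδ0.le (Nat.cast_nonneg _)
    (fun n m hm => tensor hj hk.le A B hdn hH n m hm)
  obtain ⟨hF0, hF1⟩ := sum_dens_ge (q := q) (θ := (j : ℝ) / k) A hTb hb0 he0 he1 hθ1.le hθ0.le
  rw [htot0] at hF0
  rw [htot1] at hF1
  set θ : ℝ := (j : ℝ) / k with hθ
  set R0 : ℝ := (row 0 (msum A (kfold B j)) (q + 1) : ℝ) with hR0
  set R1 : ℝ := (row 1 (msum A (kfold B j)) (q + 1) : ℝ) with hR1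
  have hR0n : 0 ≤ R0 := Nat.cast_nonneg _
  have hR1n : 0 ≤ R1 := Nat.cast_nonneg _
  have E1' : δ1 ^ (1 - θ) * ((δ1 / (2 * α)) ^ θ * (T - b)) +
      δ0 ^ (1 - θ) * ((δ0 / (2 * α)) ^ θ * b) ≤ R1 ^ θ * (δ1 * R0 + δ0 * R1) ^ (1 - θ) := by
    refine le_trans (add_le_add ?_ ?_) E1
    · exact mul_le_mul_of_nonneg_left hF0 (Real.rpow_nonneg hδ1 _)
    · exact mul_le_mul_of_nonneg_left hF1 (Real.rpow_nonneg hδ0.le _)
  -- `x ^ (1 - θ) * (x / c) ^ θ = x / c ^ θ`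
  have hsplit : ∀ x c : ℝ, 0 ≤ x → 0 < c → x ^ (1 - θ) * (x / c) ^ θ = x / c ^ θ := by
    intro x c hx hc
    rw [Real.div_rpow hx hc.le, ← mul_div_assoc]
    congr 1
    rcases hx.eq_or_lt with h | h
    · rw [← h, Real.zero_rpow hθ0.ne', mul_zero]
    · rw [← Real.rpow_add h, sub_add_cancel, Real.rpow_one]
  have h2α : (0 : ℝ) < 2 * α := by linarith
  have E1'' : (δ1 * (T - b) + δ0 * b) / (2 * α) ^ θ ≤
      R1 ^ θ * (δ1 * R0 + δ0 * R1) ^ (1 - θ) := by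
    refine le_trans (le_of_eq ?_) E1'
    rw [← mul_assoc, ← mul_assoc, hsplit δ1 _ hδ1 h2α, hsplit δ0 _ hδ0.le h2α]
    ring
  -- the scaled variables
  set κ : ℝ := (δ0 + δ1) / 2 with hκ
  have hκ0 : 0 < κ := by
    rw [hκ]
    linarith
  have hκα : 0 < κ / α := div_pos hκ0 hα
  set G : ℝ := T * (κ / α) ^ θ with hG
  have hp : 0 < (κ / α) ^ θ := Real.rpow_pos_of_pos hκα _
  have hG0 : 0 < G := mul_pos hT0 hp
  set y : ℝ := δ0 / (2 * κ) with hy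
  have h2κ : (0 : ℝ) < 2 * κ := by linarith
  have hy1 : 1 - y = δ1 / (2 * κ) := by
    rw [hy, eq_div_iff h2κ.ne', sub_mul, div_mul_cancel₀ _ h2κ.ne', hκ]
    ring
  have hyy : y * (κ / α) = δ0 / (2 * α) := by
    rw [hy]
    field_simp
  have hfin := final (θ := θ) (y := y) (τ := b / T) (r0 := R0 / G) (r1 := R1 / G) hθ0 hθ1 ?_ ?_
    (div_nonneg hb0 hT0.le) ?_ (div_nonneg hR0n hG0.le) (div_nonneg hR1n hG0.le) ?_ ?_
  · rw [← add_div, le_div_iff₀ hG0, one_mul] at hfin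
    refine le_trans (le_of_eq ?_) hfin
    rw [hG, hT, ← alpha_mul hα hκ0]
    ring
  · rw [hy, div_le_div_iff₀ (by norm_num) h2κ, hκ]
    linarith
  · rw [hy, div_le_one h2κ, hκ]
    linarith
  · rw [div_le_iff₀ hT0]
    linarith
  · rw [le_div_iff₀ hG0]
    refine le_trans (le_of_eq ?_) E0
    have hyn : 0 ≤ y := div_nonneg hδ0.le h2κ.le
    rw [← hyy, Real.mul_rpow hyn hκα.le, hG]
    field_simp
  · -- `E1`
    have hX : (1 - y) * (R0 / G) + y * (R1 / G) = (δ1 * R0 + δ0 * R1) / (2 * κ * G) := by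
      rw [hy1, hy]
      field_simp
    have hXn : 0 ≤ δ1 * R0 + δ0 * R1 := add_nonneg (mul_nonneg hδ1 hR0n) (mul_nonneg hδ0.le hR1n)
    have hGG : G ^ θ * G ^ (1 - θ) = G := by
      rw [← Real.rpow_add hG0]
      simp
    have hKK : (2 * κ) ^ θ * (2 * κ) ^ (1 - θ) = 2 * κ := by
      rw [← Real.rpow_add h2κ]
      simp
    rw [hX, Real.div_rpow hR1n hG0.le, Real.div_rpow hXn (by positivity),
      Real.mul_rpow h2κ.le hG0.le]
    have e1 : R1 ^ θ / G ^ θ * ((δ1 * R0 + δ0 * R1) ^ (1 - θ) /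
        ((2 * κ) ^ (1 - θ) * G ^ (1 - θ))) =
        R1 ^ θ * (δ1 * R0 + δ0 * R1) ^ (1 - θ) / ((2 * κ) ^ (1 - θ) * G) := by
      rw [div_mul_div_comm]
      congr 1
      rw [← mul_assoc, mul_comm (G ^ θ), mul_assoc, hGG]
    rw [e1]
    have hq1 : 0 < (2 * κ) ^ (1 - θ) := Real.rpow_pos_of_pos h2κ _
    have hq2 : 0 < (2 * α) ^ θ := Real.rpow_pos_of_pos h2α _
    have hq3 : 0 < (2 * κ) ^ θ := Real.rpow_pos_of_pos h2κ _
    rw [le_div_iff₀ (mul_pos hq1 hG0)]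
    refine le_trans (le_of_eq ?_) E1''
    have e2 : (κ / α) ^ θ = (2 * κ) ^ θ / (2 * α) ^ θ := by
      rw [← Real.div_rpow h2κ.le h2α.le]
      congr 1
      field_simp
    rw [hy1, hG, e2, hy, eq_div_iff hq2.ne']
    have e3 : (δ1 / (2 * κ) * (1 - b / T) + δ0 / (2 * κ) * (b / T)) *
        ((2 * κ) ^ (1 - θ) * (T * ((2 * κ) ^ θ / (2 * α) ^ θ))) * (2 * α) ^ θ =
        (δ1 * (T - b) + δ0 * b) / (2 * κ) * ((2 * κ) ^ θ * (2 * κ) ^ (1 - θ)) := by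
      field_simp
    rw [e3, hKK]
    field_simp

end Pool.Agent.PlunRow
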