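import Mathlib

/-!
# Weighted Hall conditions and their powers
-/

set_option autoImplicit false

open Finset Classical

namespace Pool.Agent.PlunRow

/-- Every set `Z ⊆ A` has at least `∑ a ∈ Z, d a` neighbours in `T`. -/
def WHall {P Q : Type} (A : Finset P) (T : Finset Q) (R : P → Q → Prop) (d : P → ℝ) : Prop :=
  ∀ Z ⊆ A, ∑ a ∈ Z, d a ≤ ((T.filter fun y => ∃ a ∈ Z, R a y).card : ℝ)

theorem whall_prod {P Q P' Q' : Type} {A : Finset P} {T : Finset Q} {R : P → Q → Prop}
    {d : P → ℝ} {A' : Finset P'} {T' : Finset Q'} {R' : P' → Q' → Prop} {d' : P' → ℝ}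
    (hd : ∀ a ∈ A, 0 ≤ d a) (h : WHall A T R d) (h' : WHall A' T' R' d') :
    WHall (A ×ˢ A') (T ×ˢ T') (fun a y => R a.1 y.1 ∧ R' a.2 y.2) (fun a => d a.1 * d' a.2) := by
  intro Z hZ
  set Zp : P → Finset P' := fun p => A'.filter (fun a' => (p, a') ∈ Z) with hZp
  set Np : P → Finset Q' := fun p => T'.filter (fun y' => ∃ a' ∈ Zp p, R' a' y') with hNp
  set M : Q' → Finset P := fun y' => A.filter (fun p => y' ∈ Np p) with hM
  have e1 : ∑ a ∈ Z, d a.1 * d' a.2 = ∑ p ∈ A, d p * ∑ a' ∈ Zp p, d' a' := by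
    calc ∑ a ∈ Z, d a.1 * d' a.2 = ∑ a ∈ (A ×ˢ A').filter (· ∈ Z), d a.1 * d' a.2 := by
          rw [filter_mem_eq_inter, inter_eq_right.2 hZ]
      _ = ∑ a ∈ A ×ˢ A', if a ∈ Z then d a.1 * d' a.2 else 0 := sum_filter _ _
      _ = ∑ p ∈ A, ∑ a' ∈ A', if (p, a') ∈ Z then d p * d' a' else 0 := sum_product _ _ _
      _ = _ := by
          refine sum_congr rfl fun p _ => ?_
          rw [mul_sum, hZp, sum_filter]
  have e2 : ∑ p ∈ A, d p * ∑ a' ∈ Zp p, d' a' ≤ ∑ p ∈ A, d p * ((Np p).card : ℝ) := by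
    refine sum_le_sum fun p hp => mul_le_mul_of_nonneg_left ?_ (hd p hp)
    exact h' (Zp p) (filter_subset _ _)
  have e3 : ∑ p ∈ A, d p * ((Np p).card : ℝ) = ∑ y' ∈ T', ∑ p ∈ M y', d p := by
    have : ∀ p ∈ A, d p * ((Np p).card : ℝ) = ∑ y' ∈ T', if y' ∈ Np p then d p else 0 := by
      intro p _
      rw [← sum_filter, sum_const, nsmul_eq_mul, mul_comm]
      congr 2
      rw [filter_mem_eq_inter, inter_eq_right.2 (filter_subset _ _)]
    rw [sum_congr rfl this, sum_comm]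
    refine sum_congr rfl fun y' _ => ?_
    rw [hM, sum_filter]
  have e4 : ∑ y' ∈ T', ∑ p ∈ M y', d p ≤
      ∑ y' ∈ T', ((T.filter fun y => ∃ a ∈ M y', R a y).card : ℝ) :=
    sum_le_sum fun y' _ => h (M y') (filter_subset _ _)
  have e5 : ∑ y' ∈ T', ((T.filter fun y => ∃ a ∈ M y', R a y).card : ℝ) =
      (((T ×ˢ T').filter fun y => ∃ a ∈ Z, R a.1 y.1 ∧ R' a.2 y.2).card : ℝ) := by
    rw [← Nat.cast_sum, card_filter, sum_product_right]
    congr 1
    refine sum_congr rfl fun y' hy' => ?_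
    rw [card_filter]
    refine sum_congr rfl fun y _ => ?_
    have : (∃ a ∈ M y', R a y) ↔ (∃ a ∈ Z, R a.1 y ∧ R' a.2 y') := by
      constructor
      · rintro ⟨p, hp, hR⟩
        simp only [hM, hNp, hZp, mem_filter] at hp
        obtain ⟨-, -, a', ⟨-, ha'⟩, hR'⟩ := hp
        exact ⟨(p, a'), ha', hR, hR'⟩
      · rintro ⟨⟨p, a'⟩, ha, hR, hR'⟩
        have := mem_product.1 (hZ ha)
        refine ⟨p, ?_, hR⟩
        simp only [hM, hNp, hZp, mem_filter]
        exact ⟨this.1, hy', a', ⟨this.2, ha⟩, hR'⟩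
    simp only [this]
  have e6 := e2.trans (e3.le.trans (e4.trans e5.le))
  rw [← e1] at e6
  refine e6.trans (le_of_eq ?_)
  congr!

theorem WHall.of_equiv {P Q P' Q' : Type} (e : P' ≃ P) (f : Q' ≃ Q) {A : Finset P} {T : Finset Q}
    {R : P → Q → Prop} {d : P → ℝ} (h : WHall A T R d) {A' : Finset P'} {T' : Finset Q'}
    {R' : P' → Q' → Prop} {d' : P' → ℝ} (hA : ∀ a, a ∈ A' → e a ∈ A) (hT : ∀ y, y ∈ T' ↔ f y ∈ T)
    (hR : ∀ a y, R' a y ↔ R (e a) (f y)) (hd : ∀ a, d' a = d (e a)) : WHall A' T' R' d' := by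
  intro Z hZ
  have h1 := h (Z.map e.toEmbedding) (by
    intro x hx
    obtain ⟨a, ha, rfl⟩ := mem_map.1 hx
    exact hA a (hZ ha))
  rw [sum_map] at h1
  have e1 : ∑ a ∈ Z, d' a = ∑ x ∈ Z, d (e.toEmbedding x) := sum_congr rfl fun a _ => hd a
  have e2 : (T'.filter fun y => ∃ a ∈ Z, R' a y).card =
      (T.filter fun y => ∃ a ∈ Z.map e.toEmbedding, R a y).card := by
    refine card_bij (fun y _ => f y) ?_ ?_ ?_
    · intro y hy
      rw [mem_filter] at hy ⊢
      obtain ⟨h2, a, ha, hr⟩ := hy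
      exact ⟨(hT y).1 h2, e a, mem_map_of_mem _ ha, (hR a y).1 hr⟩
    · intro y _ y' _ hyy
      exact f.injective hyy
    · intro y hy
      rw [mem_filter] at hy
      obtain ⟨h2, a, ha, hr⟩ := hy
      obtain ⟨a', ha', rfl⟩ := mem_map.1 ha
      refine ⟨f.symm y, ?_, f.apply_symm_apply y⟩
      rw [mem_filter, hT, f.apply_symm_apply]
      refine ⟨h2, a', ha', (hR a' _).2 ?_⟩
      rw [f.apply_symm_apply]
      exact hr
  rw [e1, e2]
  exact h1

/-- The power of a weighted Hall condition. -/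
theorem whall_pi {P Q : Type} (n : ℕ) {A : Finset P} {T : Finset Q} {R : P → Q → Prop}
    {d : P → ℝ} (hd : ∀ a ∈ A, 0 ≤ d a) (h : WHall A T R d) :
    WHall (Fintype.piFinset fun _ : Fin n => A) (Fintype.piFinset fun _ : Fin n => T)
      (fun a y => ∀ i, R (a i) (y i)) fun a => ∏ i, d (a i) := by
  induction n with
  | zero =>
    intro Z _
    rcases Z.eq_empty_or_nonempty with rfl | ⟨x, hx⟩
    · simp
    · have h1 : Z = {x} := by
        ext y; rw [mem_singleton]
        exact ⟨fun _ => Subsingleton.elim _ _, fun e => e ▸ hx⟩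
      rw [h1]
      simp
  | succ n ih =>
    have hp := whall_prod hd h ih
    refine hp.of_equiv (Fin.consEquiv (fun _ => P)).symm (Fin.consEquiv (fun _ => Q)).symm
      ?_ ?_ ?_ ?_
    · intro a ha
      rw [Fintype.mem_piFinset] at ha
      rw [mem_product, Fintype.mem_piFinset]
      exact ⟨ha 0, fun i => ha i.succ⟩
    · intro y
      rw [mem_product, Fintype.mem_piFinset, Fintype.mem_piFinset, Fin.forall_fin_succ]
      rfl
    · intro a y
      rw [Fin.forall_fin_succ]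
      rfl
    · intro a
      rw [Fin.prod_univ_succ]
      rfl

/-- The number of values of a product of `n` factors. -/
theorem card_values {P : Type} (n : ℕ) (A : Finset P) (d : P → ℝ) :
    ((Fintype.piFinset fun _ : Fin n => A).image fun a => ∏ i, d (a i)).card ≤
      (n + 1) ^ A.card := by
  have hsub : ((Fintype.piFinset fun _ : Fin n => A).image fun a => ∏ i, d (a i)) ⊆
      (Fintype.piFinset fun _ : A => range (n + 1)).image
        fun c => ∏ p : A, d p ^ c p := by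
    intro x hx
    obtain ⟨a, ha, rfl⟩ := mem_image.1 hx
    rw [Fintype.mem_piFinset] at ha
    refine mem_image.2 ⟨fun p => (univ.filter fun i => a i = p).card, ?_, ?_⟩
    · rw [Fintype.mem_piFinset]
      intro p
      rw [mem_range, Nat.lt_succ_iff]
      exact (card_filter_le _ _).trans (by simp)
    · rw [← prod_fiberwise_of_maps_to (s := univ) (t := A) (g := a) (fun i _ => ha i),
        ← prod_coe_sort A]
      refine prod_congr rfl fun p _ => ?_
      rw [← prod_const]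
      refine prod_congr rfl fun i hi => ?_
      rw [(mem_filter.1 hi).2]
  refine (card_le_card hsub).trans (card_image_le.trans ?_)
  rw [Fintype.card_piFinset]
  simp

/-- Pigeonhole on the values of `D`. -/
theorem exists_level {P : Type} (S : Finset P) (D : P → ℝ) (hD : ∀ a ∈ S, 0 ≤ D a) (θ : ℝ)
    (hθ : 0 < θ) (X : ℝ) (hX : ∀ t : ℝ, 0 < t → t ^ θ * ((S.filter fun a => t ≤ D a).card : ℝ) ≤ X) :
    ∑ a ∈ S, D a ^ θ ≤ ((S.image D).card : ℝ) * X := by
  have hX0 : 0 ≤ X := by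
    refine le_trans ?_ (hX 1 one_pos)
    rw [Real.one_rpow, one_mul]
    exact Nat.cast_nonneg _
  rw [← sum_fiberwise_of_maps_to (s := S) (t := S.image D) (g := D)
    (fun a ha => mem_image_of_mem D ha), ← nsmul_eq_mul, ← sum_const]
  refine sum_le_sum fun v hv => ?_
  obtain ⟨b, hb, rfl⟩ := mem_image.1 hv
  have e1 : ∑ a ∈ S with D a = D b, D a ^ θ =
      D b ^ θ * (((S.filter fun a => D a = D b).card : ℕ) : ℝ) := by
    rw [mul_comm, ← nsmul_eq_mul, ← sum_const]
    refine sum_congr rfl fun a ha => ?_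
    rw [(mem_filter.1 ha).2]
  rw [e1]
  rcases (hD b hb).eq_or_lt with h0 | hpos
  · rw [← h0, Real.zero_rpow hθ.ne', zero_mul]
    exact hX0
  · refine le_trans ?_ (hX (D b) hpos)
    refine mul_le_mul_of_nonneg_left ?_ (Real.rpow_nonneg hpos.le _)
    exact_mod_cast card_le_card fun a ha => by
      rw [mem_filter] at ha ⊢
      exact ⟨ha.1, ha.2.ge⟩

end Pool.Agent.PlunRow
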