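import Pool.Agent.PlunTwo.Rows
import Pool.Agent.PlunRow.Hall

/-!
# The weighted Hall condition in one coordinate
-/

set_option autoImplicit false

open Finset Classical

namespace Pool.Agent.PlunRow

open Pool.Agent.PlunTwo

/-- The weight of the point `x` of the row `r`, when only the first `c` points of the row `r` of
`A` are kept. -/
noncomputable def cutw (A : Set (ℕ × ℕ)) (c : ℝ) (r x : ℕ) : ℝ :=
  min (row r A (x + 1) : ℝ) c - min (row r A x : ℝ) c

/-- The points of `A` in the box. -/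
noncomputable def src (q : ℕ) (A : Set (ℕ × ℕ)) : Finset (ℕ × ℕ) := (box q 1).filter fun x => x ∈ A

/-- The row `1` of the box. -/
def tgt (q : ℕ) : Finset (ℕ × ℕ) := (box q 1).filter fun x => x.2 = 1

/-- The density of the flow which leaves a point of `A`. -/
noncomputable def dens (A : Set (ℕ × ℕ)) (c0 c1 e0 e1 : ℝ) (p : ℕ × ℕ) : ℝ :=
  if p.2 = 0 then e0 * cutw A c0 0 p.1 else e1 * cutw A c1 1 p.1

theorem row_succ (A : Set (ℕ × ℕ)) (r x : ℕ) :
    row r A (x + 1) = row r A x + if (x, r) ∈ A then 1 else 0 := by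
  rw [row, row, Finset.range_add_one, Finset.filter_insert]
  by_cases h : (x, r) ∈ A
  · rw [if_pos h, if_pos h, card_insert_of_notMem]
    simp
  · rw [if_neg h, if_neg h, add_zero]

theorem cutw_nonneg (A : Set (ℕ × ℕ)) (c : ℝ) (r x : ℕ) : 0 ≤ cutw A c r x := by
  have h : (row r A x : ℝ) ≤ row r A (x + 1) := by
    exact_mod_cast row_mono r A (Nat.le_succ x)
  have := min_le_min_right c h
  rw [cutw]
  linarith

theorem cutw_le_one (A : Set (ℕ × ℕ)) (c : ℝ) (r x : ℕ) : cutw A c r x ≤ 1 := by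
  have h : (row r A (x + 1) : ℝ) ≤ row r A x + 1 := by
    rw [row_succ]
    push_cast
    split_ifs <;> simp
  have h2 : min (row r A (x + 1) : ℝ) c ≤ min (row r A x : ℝ) c + 1 := by
    rcases le_total (row r A x : ℝ) c with h3 | h3
    · rw [min_eq_left h3]
      exact (min_le_left _ _).trans h
    · rw [min_eq_right h3]
      exact (min_le_right _ _).trans (by linarith)
  rw [cutw]
  linarith

theorem cutw_eq_zero {A : Set (ℕ × ℕ)} {c : ℝ} {r x : ℕ} (h : (x, r) ∉ A) : cutw A c r x = 0 := by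
  rw [cutw, row_succ, if_neg h, add_zero, sub_self]

theorem sum_cutw (A : Set (ℕ × ℕ)) {c : ℝ} (hc : 0 ≤ c) (r l : ℕ) :
    ∑ x ∈ range l, cutw A c r x = min (row r A l : ℝ) c := by
  unfold cutw
  rw [Finset.sum_range_sub (fun x => min (row r A x : ℝ) c)]
  have : row r A 0 = 0 := by simp [row]
  rw [this, Nat.cast_zero, min_eq_left hc, sub_zero]

/-- The two cut rows together still have density `2 α`. -/
theorem cut_rows {L : ℕ} (A : Set (ℕ × ℕ)) {α b : ℝ} (hα : 0 < α)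
    (hA : ∀ l ≤ L, 2 * α * (l : ℝ) ≤ (row 0 A l : ℝ) + row 1 A l)
    (hb : ∀ l ≤ L, 2 * α * (l : ℝ) - row 0 A l ≤ b)
    (hb' : ∃ l ≤ L, b = 2 * α * (l : ℝ) - row 0 A l) {l : ℕ} (hl : l ≤ L) :
    2 * α * (l : ℝ) ≤ min (row 0 A l : ℝ) (2 * α * L - b) + min (row 1 A l : ℝ) b := by
  obtain ⟨s, hs, hbs⟩ := hb'
  have hAl := hA l hl
  have hbl := hb l hl
  have hAs := hA s hs
  have hlL : (l : ℝ) ≤ L := by exact_mod_cast hl
  have hsL : (s : ℝ) ≤ L := by exact_mod_cast hs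
  have h2l : 2 * α * (l : ℝ) ≤ 2 * α * L := mul_le_mul_of_nonneg_left hlL (by linarith)
  have h2s : 2 * α * (s : ℝ) ≤ 2 * α * L := mul_le_mul_of_nonneg_left hsL (by linarith)
  rcases le_total s l with h | h
  · have h1 : (row 1 A s : ℝ) ≤ row 1 A l := by exact_mod_cast row_mono 1 A h
    rw [min_eq_right (show b ≤ (row 1 A l : ℝ) by linarith)]
    rcases min_choice (row 0 A l : ℝ) (2 * α * L - b) with h3 | h3 <;> rw [h3] <;> linarith
  · have h1 : (row 0 A l : ℝ) ≤ row 0 A s := by exact_mod_cast row_mono 0 A h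
    rw [min_eq_left (show (row 0 A l : ℝ) ≤ 2 * α * L - b by linarith)]
    rcases min_choice (row 1 A l : ℝ) b with h3 | h3 <;> rw [h3] <;> linarith

/-- The totals. -/
theorem cut_total {L : ℕ} (A : Set (ℕ × ℕ)) {α b : ℝ} 
    (hA : ∀ l ≤ L, 2 * α * (l : ℝ) ≤ (row 0 A l : ℝ) + row 1 A l)
    (hb : ∀ l ≤ L, 2 * α * (l : ℝ) - row 0 A l ≤ b)
    (hb' : ∃ l ≤ L, b = 2 * α * (l : ℝ) - row 0 A l) :
    min (row 0 A L : ℝ) (2 * α * L - b) = 2 * α * L - b ∧ min (row 1 A L : ℝ) b = b := by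
  obtain ⟨s, hs, hbs⟩ := hb'
  have hbL := hb L le_rfl
  have hAs := hA s hs
  have h1 : (row 1 A s : ℝ) ≤ row 1 A L := by exact_mod_cast row_mono 1 A hs
  exact ⟨min_eq_right (by linarith), min_eq_right (by linarith)⟩

/-- The part of the sum over the points of `Z` in the row `r`. -/
theorem sum_row_le {q : ℕ} {A : Set (ℕ × ℕ)} {Z : Finset (ℕ × ℕ)} (hZ : Z ⊆ src q A) {c : ℝ}
    (hc : 0 ≤ c) {r z : ℕ} (hz : z ≤ q + 1) (hz' : ∀ x < z, (x, r) ∉ Z) :
    ∑ p ∈ Z.filter (fun p => p.2 = r), cutw A c r p.1 ≤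
      min (row r A (q + 1) : ℝ) c - min (row r A z : ℝ) c := by
  rw [← sum_cutw A hc, ← sum_cutw A hc]
  have h1 : ∑ p ∈ Z.filter (fun p => p.2 = r), cutw A c r p.1 =
      ∑ x ∈ (Z.filter (fun p => p.2 = r)).image Prod.fst, cutw A c r x := by
    rw [Finset.sum_image]
    intro p hp p' hp' h
    rw [mem_coe, mem_filter] at hp hp'
    exact Prod.ext h (hp.2.trans hp'.2.symm)
  have h2 : ∑ x ∈ range (q + 1), cutw A c r x - ∑ x ∈ range z, cutw A c r x =
      ∑ x ∈ (range (q + 1)).filter (fun x => z ≤ x), cutw A c r x := by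
    rw [← Finset.sum_filter_add_sum_filter_not (range (q + 1)) (fun x => z ≤ x)]
    have : (range (q + 1)).filter (fun x => ¬ z ≤ x) = range z := by
      ext x
      simp only [mem_filter, mem_range]
      omega
    rw [this]
    ring
  rw [h1, h2]
  refine sum_le_sum_of_subset_of_nonneg ?_ fun x _ _ => cutw_nonneg A c r x
  intro x hx
  rw [mem_image] at hx
  obtain ⟨p, hp, rfl⟩ := hx
  rw [mem_filter] at hp
  have h3 := hZ hp.1
  rw [src, mem_filter, PlunTwo.box, mem_product, mem_range] at h3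
  rw [mem_filter, mem_range]
  refine ⟨h3.1.1, ?_⟩
  by_contra hlt
  push Not at hlt
  refine hz' p.1 hlt ?_
  have : (p.1, r) = p := Prod.ext rfl hp.2.symm
  rw [this]
  exact hp.1

/-- The condition in one coordinate: the points of `Z ⊆ A` reach many points of the row `1`. -/
theorem one_hall {q k : ℕ} (A B : Set (ℕ × ℕ)) {α δ0 δ1 b : ℝ} (hα : 0 < α) (hδ1 : 0 ≤ δ1)
    (hδ : δ1 ≤ δ0)
    (hA : ∀ l ≤ q + 1, 2 * α * (l : ℝ) ≤ (row 0 A l : ℝ) + row 1 A l)
    (hb0 : 0 ≤ b)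
    (hb : ∀ l ≤ q + 1, 2 * α * (l : ℝ) - row 0 A l ≤ b)
    (hb' : ∃ l ≤ q + 1, b = 2 * α * (l : ℝ) - row 0 A l)
    (hK0 : ∀ l ≤ q + 1, δ0 * (l : ℝ) ≤ row 0 (kfold B k) l)
    (hK1 : ∀ l ≤ q + 1, δ1 * (l : ℝ) ≤ row 1 (kfold B k) l) :
    WHall (src q A) (tgt q) (fun a y => ∃ w ∈ kfold B k, a + w = y)
      (dens A (2 * α * (q + 1 : ℕ) - b) b (δ1 / (2 * α)) (δ0 / (2 * α))) := by
  intro Z hZ
  obtain ⟨z0, hz0, hz0', hz0''⟩ := exists_first (fun x => (x, 0) ∈ Z) (q + 1)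
  obtain ⟨z1, hz1, hz1', hz1''⟩ := exists_first (fun x => (x, 1) ∈ Z) (q + 1)
  have hc0 : 0 ≤ 2 * α * ((q + 1 : ℕ) : ℝ) - b := by
    obtain ⟨s, hs, hbs⟩ := hb'
    have hsL : (s : ℝ) ≤ ((q + 1 : ℕ) : ℝ) := by exact_mod_cast hs
    have h2s : 2 * α * (s : ℝ) ≤ 2 * α * ((q + 1 : ℕ) : ℝ) :=
      mul_le_mul_of_nonneg_left hsL (by linarith)
    have : (0 : ℝ) ≤ row 0 A s := Nat.cast_nonneg _
    linarith
  obtain ⟨ht0, ht1⟩ := cut_total A hA hb hb'
  -- the sum
  have hsum : ∑ a ∈ Z, dens A (2 * α * (q + 1 : ℕ) - b) b (δ1 / (2 * α)) (δ0 / (2 * α)) a =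
      δ1 / (2 * α) * ∑ p ∈ Z.filter (fun p => p.2 = 0), cutw A (2 * α * (q + 1 : ℕ) - b) 0 p.1 +
      δ0 / (2 * α) * ∑ p ∈ Z.filter (fun p => p.2 = 1), cutw A b 1 p.1 := by
    rw [← Finset.sum_filter_add_sum_filter_not Z (fun p => p.2 = 0), Finset.mul_sum,
      Finset.mul_sum]
    congr 1
    · refine sum_congr rfl fun p hp => ?_
      rw [dens, if_pos (mem_filter.1 hp).2]
    · have : Z.filter (fun p => ¬ p.2 = 0) = Z.filter (fun p => p.2 = 1) := by
        refine filter_congr fun p hp => ?_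
        have h3 := hZ hp
        rw [src, mem_filter, PlunTwo.box, mem_product, mem_range, mem_range] at h3
        omega
      rw [this]
      refine sum_congr rfl fun p hp => ?_
      rw [dens, if_neg (by rw [(mem_filter.1 hp).2]; exact one_ne_zero)]
  have hs0 := sum_row_le hZ hc0 (r := 0) hz0 hz0'
  have hs1 := sum_row_le hZ hb0 (r := 1) hz1 hz1'
  rw [ht0] at hs0
  rw [ht1] at hs1
  obtain ⟨W0, hW0⟩ : ∃ W0 : ℕ → ℝ, W0 = fun l => min (row 0 A l : ℝ) (2 * α * (q + 1 : ℕ) - b) :=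
    ⟨_, rfl⟩
  obtain ⟨W1, hW1⟩ : ∃ W1 : ℕ → ℝ, W1 = fun l => min (row 1 A l : ℝ) b := ⟨_, rfl⟩
  have hcut : ∀ l ≤ q + 1, 2 * α * (l : ℝ) ≤ W0 l + W1 l := fun l hl => by
    rw [hW0, hW1]; exact cut_rows A hα hA hb hb' hl
  have hm0 : ∀ l l', l ≤ l' → W0 l ≤ W0 l' := fun l l' h => by
    rw [hW0]; exact min_le_min_right _ (by exact_mod_cast row_mono 0 A h)
  have hm1 : ∀ l l', l ≤ l' → W1 l ≤ W1 l' := fun l l' h => by
    rw [hW1]; exact min_le_min_right _ (by exact_mod_cast row_mono 1 A h)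
  have hs0' : ∑ p ∈ Z.filter (fun p => p.2 = 0), cutw A (2 * α * (q + 1 : ℕ) - b) 0 p.1 ≤
      2 * α * (q + 1 : ℕ) - b - W0 z0 := by rw [hW0]; exact hs0
  have hs1' : ∑ p ∈ Z.filter (fun p => p.2 = 1), cutw A b 1 p.1 ≤ b - W1 z1 := by
    rw [hW1]; exact hs1
  have hW0le : ∀ l, W0 l ≤ 2 * α * (q + 1 : ℕ) - b := fun l => by rw [hW0]; exact min_le_right _ _
  obtain ⟨L, hL⟩ : ∃ L : ℕ, L = q + 1 := ⟨_, rfl⟩
  rw [← hL] at hs0' hW0le hcut hz0 hz1 hK0 hK1 hz0'' hz1''
  -- the bound for the sum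
  have hbound : ∑ a ∈ Z, dens A (2 * α * (q + 1 : ℕ) - b) b (δ1 / (2 * α)) (δ0 / (2 * α)) a ≤
      δ1 * ((L : ℝ) - min z0 z1) + (δ0 - δ1) * ((L : ℝ) - z1) := by
    have e0 : 0 ≤ δ1 / (2 * α) := div_nonneg hδ1 (by linarith)
    have e1 : 0 ≤ δ0 / (2 * α) := div_nonneg (hδ1.trans hδ) (by linarith)
    have e2 : 0 ≤ (δ0 - δ1) / (2 * α) := div_nonneg (by linarith) (by linarith)
    have b1 : 2 * α * (L : ℝ) - W0 z0 - W1 z1 ≤ 2 * α * ((L : ℝ) - min z0 z1) := by
      have h1 := hcut (min z0 z1) ((min_le_left _ _).trans hz0)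
      have h2 := hm0 _ _ (min_le_left z0 z1)
      have h3 := hm1 _ _ (min_le_right z0 z1)
      linarith
    have b2 : b - W1 z1 ≤ 2 * α * ((L : ℝ) - z1) := by
      have h1 := hcut z1 hz1
      have h2 := hW0le z1
      linarith
    rw [hsum, ← hL]
    calc δ1 / (2 * α) * ∑ p ∈ Z.filter (fun p => p.2 = 0), cutw A (2 * α * (L : ℕ) - b) 0 p.1 +
          δ0 / (2 * α) * ∑ p ∈ Z.filter (fun p => p.2 = 1), cutw A b 1 p.1
        ≤ δ1 / (2 * α) * (2 * α * L - b - W0 z0) + δ0 / (2 * α) * (b - W1 z1) :=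
          add_le_add (mul_le_mul_of_nonneg_left hs0' e0) (mul_le_mul_of_nonneg_left hs1' e1)
      _ = δ1 / (2 * α) * (2 * α * L - W0 z0 - W1 z1) +
          (δ0 - δ1) / (2 * α) * (b - W1 z1) := by ring
      _ ≤ δ1 / (2 * α) * (2 * α * ((L : ℝ) - min z0 z1)) +
          (δ0 - δ1) / (2 * α) * (2 * α * ((L : ℝ) - z1)) :=
          add_le_add (mul_le_mul_of_nonneg_left b1 e0) (mul_le_mul_of_nonneg_left b2 e2)
      _ = δ1 * ((L : ℝ) - min z0 z1) + (δ0 - δ1) * ((L : ℝ) - z1) := by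
          have : 2 * α ≠ 0 := by positivity
          field_simp
  refine hbound.trans ?_
  -- the neighbours
  set S := (range L).filter fun x => ∃ a ∈ Z, ∃ w ∈ kfold B k, a + w = (x, 1) with hS
  have hScard : S.card ≤ ((tgt q).filter fun y => ∃ a ∈ Z, ∃ w ∈ kfold B k, a + w = y).card := by
    refine card_le_card_of_injOn (fun x => (x, 1)) ?_ ?_
    · intro x hx
      rw [mem_coe, hS, mem_filter, mem_range] at hx
      rw [mem_coe, mem_filter, tgt, mem_filter, PlunTwo.box, mem_product, mem_range, mem_range]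
      exact ⟨⟨⟨by rw [← hL]; exact hx.1, by norm_num⟩, rfl⟩, hx.2⟩
    · intro x _ y _ hxy
      exact (Prod.mk.inj hxy).1
  have hScard' : (S.card : ℝ) ≤
      ((tgt q).filter fun y => ∃ a ∈ Z, ∃ w ∈ kfold B k, a + w = y).card := by
    exact_mod_cast hScard
  refine le_trans ?_ hScard'
  have hsplit : (S.filter fun x => x < z1).card + (S.filter fun x => ¬ x < z1).card = S.card :=
    card_filter_add_card_filter_not _
  have hhigh : row 0 (kfold B k) (L - z1) ≤ (S.filter fun x => ¬ x < z1).card := by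
    refine card_le_card_of_injOn (fun x => z1 + x) ?_ ?_
    · intro x hx
      rw [mem_coe, mem_filter, mem_range] at hx
      rw [mem_coe, mem_filter, hS, mem_filter, mem_range]
      have hlt : z1 < L := by omega
      refine ⟨⟨?_, (z1, 1), hz1'' hlt, (x, 0), hx.2, rfl⟩, ?_⟩
      · change z1 + x < L
        omega
      · change ¬ z1 + x < z1
        omega
    · intro x _ y _ hxy
      exact Nat.add_left_cancel hxy
  have hhigh' : δ0 * ((L : ℝ) - z1) ≤ ((S.filter fun x => ¬ x < z1).card : ℝ) := by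
    have h1 := hK0 (L - z1) (by omega)
    rw [Nat.cast_sub hz1] at h1
    exact h1.trans (by exact_mod_cast hhigh)
  rcases le_or_gt z0 z1 with hzz | hzz
  · have hlow : row 1 (kfold B k) (z1 - z0) ≤ (S.filter fun x => x < z1).card := by
      refine card_le_card_of_injOn (fun x => z0 + x) ?_ ?_
      · intro x hx
        rw [mem_coe, mem_filter, mem_range] at hx
        rw [mem_coe, mem_filter, hS, mem_filter, mem_range]
        have hlt : z0 < L := by omega
        refine ⟨⟨?_, (z0, 0), hz0'' hlt, (x, 1), hx.2, ?_⟩, ?_⟩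
        · change z0 + x < L
          omega
        · change (z0 + x, 0 + 1) = (z0 + x, 1)
          rw [zero_add]
        · change z0 + x < z1
          omega
      · intro x _ y _ hxy
        exact Nat.add_left_cancel hxy
    have hlow' : δ1 * ((z1 : ℝ) - z0) ≤ ((S.filter fun x => x < z1).card : ℝ) := by
      have h1 := hK1 (z1 - z0) (by omega)
      rw [Nat.cast_sub hzz] at h1
      exact h1.trans (by exact_mod_cast hlow)
    have hmin : min z0 z1 = z0 := min_eq_left hzz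
    rw [hmin]
    have : ((S.filter fun x => x < z1).card : ℝ) + ((S.filter fun x => ¬ x < z1).card : ℝ) =
        S.card := by exact_mod_cast hsplit
    linarith
  · have hmin : min z0 z1 = z1 := min_eq_right hzz.le
    rw [hmin]
    have h0 : (0 : ℝ) ≤ ((S.filter fun x => x < z1).card : ℝ) := Nat.cast_nonneg _
    have : ((S.filter fun x => x < z1).card : ℝ) + ((S.filter fun x => ¬ x < z1).card : ℝ) =
        S.card := by exact_mod_cast hsplit
    linarith

end Pool.Agent.PlunRow
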